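import Pool.Agent.Lib.MP_67d80e_pr_all.Stmts

/-!
Label functionals: a certificate on labels (lists of lower bounds for the levels near a site) gives
a functional of droplets which grows at most at a given exponential rate, in every dimension.
-/

set_option autoImplicit false

open scoped BigOperators ENNReal
open Filter MeasureTheory
open Pool.Agent.Lib.MP_67d80e_pr Pool.Agent.Lib.MP_67d80e_pr_all

namespace Pool.Agent.Lib.MP_67d80e_pr_lab

variable {n : ℕ} {ι : Type}

/-- the lower bounds `K` (relative to the level of `z`) are valid at the site `z` -/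
def Val (a : Dr (n + 1)) (z : Site (n + 1)) (K : Set (Site (n + 1) × ℤ)) : Prop :=
  ∀ p ∈ K, a z + ((p.2 : ℤ) : WithBot ℤ) ≤ a (z + p.1)

/-- the data of a label functional -/
structure Cert (n : ℕ) (ι : Type) where
  /-- the lower bounds of a label -/
  K : ι → Set (Site (n + 1) × ℤ)
  /-- the weight of a label -/
  φ : ι → ℕ
  /-- the label after a ring of the centre -/
  own : ι → ι
  /-- the sites whose rings are followed -/
  E : ι → Finset (Site (n + 1))
  /-- the label after a ring at a followed site, `none` if this ring creates the centre anew -/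
  tgt : ι → Site (n + 1) → Option ι
  /-- the label of the neighbour created by a ring of the centre, `none` if there is none -/
  child : ι → Site (n + 1) → Option ι

/-- the weight of an optional label -/
def Cert.φo (c : Cert n ι) : Option ι → ℝ
  | none => 0
  | some j => c.φ j

/-- the conditions on a certificate -/
structure Cert.Ok (c : Cert n ι) (q lam : ℝ) (R : ℕ) : Prop where
  one_le : 1 ≤ q
  lam_nonneg : 0 ≤ lam
  R_pos : 1 ≤ R
  root : ∃ i, c.K i = ∅
  pos : ∀ i, 1 ≤ c.φ i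
  own_ok : ∀ i a z, Val a z (c.K i) → Val (upd {z} a) z (c.K (c.own i))
  E_ne : ∀ i, (0 : Site (n + 1)) ∉ c.E i
  E_le : ∀ i, ∀ y ∈ c.E i, ∀ k, |y k| ≤ R
  kill_ok : ∀ i, ∀ y ∈ c.E i, c.tgt i y = none → ∀ a z, a z ≠ ⊥ → Val a z (c.K i) →
    z + y ∈ nbrs z ∧ a z < a (z + y)
  tgt_ok : ∀ i, ∀ y ∈ c.E i, ∀ j, c.tgt i y = some j → ∀ a z, a z ≠ ⊥ → Val a z (c.K i) →
    (z + y ∈ nbrs z → a (z + y) ≤ a z) → Val (upd {z + y} a) z (c.K j)
  nochild_ok : ∀ i, ∀ f ∈ nbrs (0 : Site (n + 1)), c.child i f = none → ∀ a z, a z ≠ ⊥ →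
    Val a z (c.K i) → a z ≤ a (z + f)
  child_ok : ∀ i, ∀ f ∈ nbrs (0 : Site (n + 1)), ∀ j, c.child i f = some j → ∀ a z, a z ≠ ⊥ →
    Val a z (c.K i) → a (z + f) < a z → Val (upd {z} a) (z + f) (c.K j)
  ineq : ∀ i, q * c.φ (c.own i) + ∑ f ∈ nbrs (0 : Site (n + 1)), q ^ (f 0) * c.φo (c.child i f) +
    ∑ y ∈ c.E i, c.φo (c.tgt i y) ≤ (lam + 1 + (c.E i).card) * c.φ i

lemma Cert.φo_nonneg (c : Cert n ι) (o : Option ι) : 0 ≤ c.φo o := by
  cases o with
  | none => exact le_rfl
  | some j => exact Nat.cast_nonneg _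

/-! ### the functional -/

/-- the level of a droplet at a site -/
noncomputable def lv (a : Dr (n + 1)) (z : Site (n + 1)) : ℤ := (a z).unbotD 0

lemma lv_coe {a : Dr (n + 1)} {z : Site (n + 1)} {m : ℤ} (h : a z = (m : WithBot ℤ)) :
    lv a z = m := by
  unfold lv; rw [h]; rfl

/-- the smallest weight of a valid label -/
noncomputable def mn (c : Cert n ι) (a : Dr (n + 1)) (z : Site (n + 1)) : ℕ :=
  sInf {f | ∃ i, c.φ i = f ∧ Val a z (c.K i)}

/-- the label used at a site -/
noncomputable def lb [Nonempty ι] (c : Cert n ι) (a : Dr (n + 1)) (z : Site (n + 1)) : ι :=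
  Classical.epsilon fun i => c.φ i = mn c a z ∧ Val a z (c.K i)

lemma mn_le {c : Cert n ι} {a : Dr (n + 1)} {z : Site (n + 1)} {i : ι} (h : Val a z (c.K i)) :
    mn c a z ≤ c.φ i :=
  Nat.sInf_le ⟨i, rfl, h⟩

open Classical in
/-- the exponential weight of a site -/
noncomputable def wq (q : ℝ) (a : Dr (n + 1)) (z : Site (n + 1)) : ℝ :=
  if a z = ⊥ then 0 else q ^ (lv a z + z 0)

/-- the weight of a site -/
noncomputable def wt (c : Cert n ι) (q : ℝ) (a : Dr (n + 1)) (z : Site (n + 1)) : ℝ :=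
  wq q a z * mn c a z

/-- the functional -/
noncomputable def Psi (c : Cert n ι) (q : ℝ) (a : Dr (n + 1)) : ℝ≥0∞ :=
  ∑' z, ENNReal.ofReal (wt c q a z)

lemma wq_eq {q : ℝ} {a : Dr (n + 1)} {z : Site (n + 1)} {m : ℤ} (h : a z = (m : WithBot ℤ)) :
    wq q a z = q ^ (m + z 0) := by
  unfold wq
  rw [if_neg (by rw [h]; exact WithBot.coe_ne_bot), lv_coe h]

lemma wq_bot {q : ℝ} {a : Dr (n + 1)} {z : Site (n + 1)} (h : a z = ⊥) : wq q a z = 0 := by
  unfold wq; rw [if_pos h]

lemma wt_bot {c : Cert n ι} {q : ℝ} {a : Dr (n + 1)} {z : Site (n + 1)} (h : a z = ⊥) :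
    wt c q a z = 0 := by
  unfold wt; rw [wq_bot h, zero_mul]

lemma wq_nonneg {q : ℝ} (hq : 1 ≤ q) (a : Dr (n + 1)) (z : Site (n + 1)) : 0 ≤ wq q a z := by
  unfold wq; split_ifs
  · exact le_rfl
  · have : (0 : ℝ) < q := by linarith
    positivity

lemma wt_nonneg {c : Cert n ι} {q : ℝ} (hq : 1 ≤ q) (a : Dr (n + 1)) (z : Site (n + 1)) :
    0 ≤ wt c q a z := mul_nonneg (wq_nonneg hq a z) (Nat.cast_nonneg _)

lemma mem_nbrs_zero {f : Site (n + 1)} : f ∈ nbrs (0 : Site (n + 1)) ↔
    ∃ i, f = e i ∨ f = -e i := by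
  rw [mem_nbrs]
  simp only [zero_add, zero_sub]

lemma add_mem_nbrs_iff {x f : Site (n + 1)} : x + f ∈ nbrs x ↔ f ∈ nbrs (0 : Site (n + 1)) := by
  rw [mem_nbrs, mem_nbrs_zero]
  refine exists_congr fun i => ?_
  constructor
  · rintro (h | h)
    · left; exact add_left_cancel h
    · right; rw [sub_eq_add_neg] at h; exact add_left_cancel h
  · rintro (h | h)
    · left; rw [h]
    · right; rw [h]; abel

lemma abs_nbrs_le {f : Site (n + 1)} (hf : f ∈ nbrs (0 : Site (n + 1))) (k : Fin (n + 1)) :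
    |f k| ≤ 1 := by
  obtain ⟨i, h | h⟩ := mem_nbrs_zero.1 hf
  · rw [h]; unfold e
    by_cases hk : k = i
    · subst hk; simp
    · rw [Pi.single_eq_of_ne hk]; simp
  · rw [h]; unfold e
    rw [Pi.neg_apply, abs_neg]
    by_cases hk : k = i
    · subst hk; simp
    · rw [Pi.single_eq_of_ne hk]; simp

section
variable [Nonempty ι] {c : Cert n ι} {q lam : ℝ} {R : ℕ}

lemma lb_spec (h : c.Ok q lam R) (a : Dr (n + 1)) (z : Site (n + 1)) :
    c.φ (lb c a z) = mn c a z ∧ Val a z (c.K (lb c a z)) := by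
  have h1 : ∃ i, c.φ i = mn c a z ∧ Val a z (c.K i) := by
    have h2 : ({f | ∃ i, c.φ i = f ∧ Val a z (c.K i)} : Set ℕ).Nonempty := by
      obtain ⟨i, hi⟩ := h.root
      refine ⟨c.φ i, i, rfl, ?_⟩
      rw [hi]
      intro p hp
      exact absurd hp (Set.notMem_empty p)
    exact Nat.sInf_mem h2
  exact Classical.epsilon_spec h1

lemma one_le_mn (h : c.Ok q lam R) (a : Dr (n + 1)) (z : Site (n + 1)) : 1 ≤ mn c a z := by
  rw [← (lb_spec h a z).1]
  exact h.pos _

open Classical in
/-- the value of a ring at a followed site -/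
noncomputable def vv (c : Cert n ι) (q : ℝ) (i : ι) (y : Site (n + 1)) : ℝ :=
  if y = 0 then q * c.φ (c.own i) else c.φo (c.tgt i y)

omit [Nonempty ι] in
lemma vv_nonneg (hq : 1 ≤ q) (i : ι) (y : Site (n + 1)) : 0 ≤ vv c q i y := by
  unfold vv
  split_ifs
  · have : (0 : ℝ) ≤ q := by linarith
    positivity
  · exact c.φo_nonneg _

open Classical in
/-- the contribution of a site to its own weight -/
noncomputable def ow (c : Cert n ι) (q : ℝ) (S : Set (Site (n + 1))) (a : Dr (n + 1))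
    (z : Site (n + 1)) : ℝ :=
  wq q a z * (if ∃ y ∈ insert 0 (c.E (lb c a z)), z + y ∈ S then
    ∑ y ∈ insert 0 (c.E (lb c a z)), (if z + y ∈ S then vv c q (lb c a z) y else 0)
    else (c.φ (lb c a z) : ℝ))

open Classical in
/-- the weight of the neighbour `x + f` created by a ring at `x` -/
noncomputable def ch (c : Cert n ι) (q : ℝ) (S : Set (Site (n + 1))) (a : Dr (n + 1))
    (f x : Site (n + 1)) : ℝ :=
  if x ∈ S then wq q a x * (q ^ (f 0) * c.φo (c.child (lb c a x) f)) else 0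

lemma ow_nonneg (hq : 1 ≤ q) (S : Set (Site (n + 1))) (a : Dr (n + 1)) (z : Site (n + 1)) :
    0 ≤ ow c q S a z := by
  unfold ow
  refine mul_nonneg (wq_nonneg hq a z) ?_
  split_ifs
  · refine Finset.sum_nonneg fun y _ => ?_
    split_ifs
    · exact vv_nonneg hq _ _
    · exact le_rfl
  · positivity

lemma ch_nonneg (hq : 1 ≤ q) (S : Set (Site (n + 1))) (a : Dr (n + 1)) (f x : Site (n + 1)) :
    0 ≤ ch c q S a f x := by
  unfold ch
  split_ifs
  · have h0 : (0 : ℝ) < q := by linarith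
    exact mul_nonneg (wq_nonneg hq a x) (mul_nonneg (by positivity) (c.φo_nonneg _))
  · exact le_rfl

omit [Nonempty ι] in
lemma wt_le (hq : 1 ≤ q) {a : Dr (n + 1)} {z : Site (n + 1)} {m : ℤ}
    (h : a z = (m : WithBot ℤ)) {i : ι} (hv : Val a z (c.K i)) :
    wt c q a z ≤ q ^ (m + z 0) * c.φ i := by
  unfold wt
  rw [wq_eq h]
  have h0 : (0 : ℝ) < q := by linarith
  have h2 : (mn c a z : ℝ) ≤ c.φ i := by exact_mod_cast mn_le hv
  exact mul_le_mul_of_nonneg_left h2 (by positivity)

omit [Nonempty ι] in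
/-- validity only improves if the level of the centre does not change -/
lemma Val.mono {a b : Dr (n + 1)} {z : Site (n + 1)} {K : Set (Site (n + 1) × ℤ)}
    (h : Val a z K) (h1 : ∀ x, a x ≤ b x) (h2 : b z = a z) : Val b z K := by
  intro p hp
  rw [h2]
  exact (h p hp).trans (h1 _)

lemma ow_ge_of_mem (hq : 1 ≤ q) {S : Set (Site (n + 1))} {a : Dr (n + 1)} {z y : Site (n + 1)}
    (hy : y ∈ insert 0 (c.E (lb c a z))) (hS : z + y ∈ S) :
    wq q a z * vv c q (lb c a z) y ≤ ow c q S a z := by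
  classical
  unfold ow
  refine mul_le_mul_of_nonneg_left ?_ (wq_nonneg hq a z)
  rw [if_pos ⟨y, hy, hS⟩]
  refine le_trans (le_of_eq ?_) (Finset.single_le_sum (f := fun y =>
    if z + y ∈ S then vv c q (lb c a z) y else 0) (fun k _ => ?_) hy)
  · simp only [if_pos hS]
  · split_ifs
    · exact vv_nonneg hq _ _
    · exact le_rfl

lemma ow_eq_of_notMem {S : Set (Site (n + 1))} {a : Dr (n + 1)} {z : Site (n + 1)}
    (hS : ∀ y ∈ insert 0 (c.E (lb c a z)), z + y ∉ S) :
    ow c q S a z = wq q a z * c.φ (lb c a z) := by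
  classical
  unfold ow
  rw [if_neg]
  rintro ⟨y, hy, h⟩
  exact hS y hy h

/-- separated sets -/
def Sep (R : ℕ) (S : Set (Site (n + 1))) : Prop :=
  ∀ x ∈ S, ∀ y ∈ S, (∀ k, |x k - y k| ≤ 2 * R) → x = y

omit [Nonempty ι] in
lemma Sep.notMem_of_nbr (hR : 1 ≤ R) {S : Set (Site (n + 1))} (hS : Sep R S)
    {z y : Site (n + 1)} (hz : z ∈ S) (hy : y ∈ nbrs z) : y ∉ S := by
  intro hyS
  have h1 : y = z := by
    refine hS y hyS z hz fun k => ?_
    have h2 : y - z ∈ nbrs (0 : Site (n + 1)) := by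
      rw [← add_mem_nbrs_iff (x := z), add_sub_cancel]; exact hy
    have h3 := abs_nbrs_le h2 k
    rw [Pi.sub_apply] at h3
    have h4 : (1 : ℤ) ≤ R := by exact_mod_cast hR
    linarith
  exact ne_of_mem_nbrs hy h1

omit [Nonempty ι] in
lemma upd_center {S : Set (Site (n + 1))} {a : Dr (n + 1)} {z : Site (n + 1)} (hz : z ∈ S)
    (h : ∀ y ∈ nbrs z, y ∉ S) : upd S a z = a z + 1 := by
  refine le_antisymm ?_ (upd_self hz a)
  rw [upd_le_iff]
  exact ⟨le_add_one _, fun _ => le_rfl, fun y hy hyS => absurd hyS (h y hy)⟩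

omit [Nonempty ι] in
lemma upd_nbr_eq {S : Set (Site (n + 1))} {a : Dr (n + 1)} {z x : Site (n + 1)} (hz : z ∉ S)
    (hx : x ∈ nbrs z) (hxS : x ∈ S) (h : ∀ y ∈ nbrs z, y ∈ S → y = x) :
    upd S a z = max (a z) (a x) := by
  refine le_antisymm ?_ (max_le (le_upd S a z) (upd_nbr hx hxS a))
  rw [upd_le_iff]
  refine ⟨le_max_left _ _, fun h' => absurd h' hz, fun y hy hyS => ?_⟩
  rw [h y hy hyS]
  exact le_max_right _ _

omit [Nonempty ι] in
lemma upd_same {S : Set (Site (n + 1))} {a : Dr (n + 1)} {z : Site (n + 1)} (hz : z ∉ S)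
    (h : ∀ y ∈ nbrs z, y ∈ S → a y ≤ a z) : upd S a z = a z := by
  refine le_antisymm ?_ (le_upd S a z)
  rw [upd_le_iff]
  exact ⟨le_rfl, fun h' => absurd h' hz, h⟩

/-- the termwise bound -/
theorem wt_upd_le (h : c.Ok q lam R) {S : Set (Site (n + 1))} (hS : Sep R S) (a : Dr (n + 1))
    (z : Site (n + 1)) :
    wt c q (upd S a) z ≤ ow c q S a z + ∑ f ∈ nbrs (0 : Site (n + 1)), ch c q S a f (z - f) := by
  classical
  have hq := h.one_le
  have hq0 : (0 : ℝ) < q := by linarith
  have hR := h.R_pos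
  have n1 := ow_nonneg (c := c) hq S a z
  have n2 : ∀ f ∈ nbrs (0 : Site (n + 1)), 0 ≤ ch c q S a f (z - f) := fun f _ =>
    ch_nonneg hq S a f (z - f)
  have n3 := Finset.sum_nonneg n2
  by_cases hbot : upd S a z = ⊥
  · rw [wt_bot hbot]
    linarith
  by_cases hz : z ∈ S
  · -- the centre rings
    have hu : upd S a z = a z + 1 := upd_center hz fun y hy => hS.notMem_of_nbr hR hz hy
    have hne : a z ≠ ⊥ := by
      intro h0
      apply hbot
      rw [hu, h0]; rfl
    obtain ⟨m, hm⟩ := WithBot.ne_bot_iff_exists.1 hne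
    have hm := hm.symm
    have hu' : upd S a z = ((m + 1 : ℤ) : WithBot ℤ) := by rw [hu, hm]; rfl
    obtain ⟨hmn, hval⟩ := lb_spec h a z
    have hv1 := h.own_ok _ a z hval
    have hu1 : upd {z} a z = a z + 1 := upd_center (Set.mem_singleton z) fun y hy hyz =>
      self_notMem_nbrs z (by rw [Set.mem_singleton_iff] at hyz; rwa [hyz] at hy)
    have hv : Val (upd S a) z (c.K (c.own (lb c a z))) :=
      hv1.mono (fun x => upd_mono_set (Set.singleton_subset_iff.2 hz) a x) (by rw [hu, hu1])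
    have h1 := wt_le hq hu' hv
    have h2 := ow_ge_of_mem (S := S) hq (Finset.mem_insert_self 0 (c.E (lb c a z)))
      (by rw [add_zero]; exact hz)
    have h3 : vv c q (lb c a z) 0 = q * c.φ (c.own (lb c a z)) := by unfold vv; rw [if_pos rfl]
    rw [h3, wq_eq hm] at h2
    have h4 : q ^ (m + 1 + z 0) = q ^ (m + z 0) * q := by
      rw [show m + 1 + z 0 = m + z 0 + 1 by ring, zpow_add_one₀ hq0.ne']
    rw [h4] at h1
    linarith
  by_cases hex : ∃ x ∈ nbrs z, x ∈ S ∧ a z < a x
  · -- the neighbour `x` creates `z`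
    obtain ⟨x, hx, hxS, hlt⟩ := hex
    have huniq : ∀ y ∈ nbrs z, y ∈ S → y = x := by
      intro y hy hyS
      refine hS y hyS x hxS fun k => ?_
      have hy' : y - z ∈ nbrs (0 : Site (n + 1)) := by
        rw [← add_mem_nbrs_iff (x := z), add_sub_cancel]; exact hy
      have hx' : x - z ∈ nbrs (0 : Site (n + 1)) := by
        rw [← add_mem_nbrs_iff (x := z), add_sub_cancel]; exact hx
      have h3 := abs_nbrs_le hy' k
      have h4 := abs_nbrs_le hx' k
      rw [Pi.sub_apply] at h3 h4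
      have h5 : (1 : ℤ) ≤ R := by exact_mod_cast hR
      rw [abs_le] at h3 h4 ⊢
      constructor <;> linarith [h3.1, h3.2, h4.1, h4.2]
    have hu : upd S a z = a x := by
      rw [upd_nbr_eq hz hx hxS huniq, max_eq_right hlt.le]
    have hne : a x ≠ ⊥ := by rw [← hu]; exact hbot
    obtain ⟨m, hm⟩ := WithBot.ne_bot_iff_exists.1 hne
    have hm := hm.symm
    obtain ⟨hmn, hval⟩ := lb_spec h a x
    set f : Site (n + 1) := z - x with hf
    have hzf : x + f = z := by rw [hf]; abel
    have hfn : f ∈ nbrs (0 : Site (n + 1)) := by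
      rw [← add_mem_nbrs_iff (x := x), hzf]
      exact nbrs_symm.1 hx
    have hxf : z - f = x := by rw [hf]; abel
    cases hc : c.child (lb c a x) f with
    | none =>
      have := h.nochild_ok _ f hfn hc a x hne hval
      rw [hzf] at this
      exact absurd this (not_le.2 hlt)
    | some j =>
      have hv1 := h.child_ok _ f hfn j hc a x hne hval (by rw [hzf]; exact hlt)
      rw [hzf] at hv1
      have hu1 : upd {x} a z = a x := by
        rw [upd_nbr_eq (fun hzx => ?_) hx (Set.mem_singleton x) (fun y _ hy => hy),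
          max_eq_right hlt.le]
        rw [Set.mem_singleton_iff] at hzx
        rw [hzx] at hx
        exact self_notMem_nbrs x hx
      have hv : Val (upd S a) z (c.K j) :=
        hv1.mono (fun x' => upd_mono_set (Set.singleton_subset_iff.2 hxS) a x') (by rw [hu, hu1])
      have h1 := wt_le hq (hu.trans hm) hv
      have h2 : ch c q S a f (z - f) = q ^ (m + z 0) * c.φ j := by
        rw [hxf]
        unfold ch
        rw [if_pos hxS, hc, wq_eq hm]
        change q ^ (m + x 0) * (q ^ (f 0) * (c.φ j : ℝ)) = _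
        rw [← mul_assoc, ← zpow_add₀ hq0.ne']
        congr 2
        rw [hf, Pi.sub_apply]
        ring
      have h3 := Finset.single_le_sum n2 hfn
      rw [h2] at h3
      linarith
  · -- the level does not change
    have hle : ∀ y ∈ nbrs z, y ∈ S → a y ≤ a z := by
      intro y hy hyS
      by_contra hcon
      exact hex ⟨y, hy, hyS, not_le.1 hcon⟩
    have hu : upd S a z = a z := upd_same hz hle
    have hne : a z ≠ ⊥ := by rw [← hu]; exact hbot
    obtain ⟨m, hm⟩ := WithBot.ne_bot_iff_exists.1 hne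
    have hm := hm.symm
    obtain ⟨hmn, hval⟩ := lb_spec h a z
    by_cases hw : ∃ y ∈ c.E (lb c a z), z + y ∈ S
    · obtain ⟨y, hy, hyS⟩ := hw
      have hy0 : y ≠ 0 := fun h0 => h.E_ne _ (h0 ▸ hy)
      have h2 := ow_ge_of_mem (S := S) hq (Finset.mem_insert_of_mem hy) hyS
      have h3 : vv c q (lb c a z) y = c.φo (c.tgt (lb c a z) y) := by
        unfold vv; rw [if_neg hy0]
      rw [h3, wq_eq hm] at h2
      cases hc : c.tgt (lb c a z) y with
      | none =>
        obtain ⟨h4, h5⟩ := h.kill_ok _ y hy hc a z hne hval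
        exact absurd (hle _ h4 hyS) (not_le.2 h5)
      | some j =>
        have hv1 := h.tgt_ok _ y hy j hc a z hne hval (fun h4 => hle _ h4 hyS)
        have hu1 : upd {z + y} a z = a z := by
          refine upd_same (fun h4 => hz ?_) (fun y' h4 h5 => ?_)
          · rw [Set.mem_singleton_iff] at h4; rw [h4]; exact hyS
          · rw [Set.mem_singleton_iff] at h5
            rw [h5] at h4 ⊢
            exact hle _ h4 hyS
        have hv : Val (upd S a) z (c.K j) :=
          hv1.mono (fun x' => upd_mono_set (Set.singleton_subset_iff.2 hyS) a x')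
            (by rw [hu, hu1])
        have h1 := wt_le hq (hu.trans hm) hv
        rw [hc] at h2
        change q ^ (m + z 0) * (c.φ j : ℝ) ≤ _ at h2
        linarith
    · push Not at hw
      have h2 : ow c q S a z = wq q a z * c.φ (lb c a z) := by
        refine ow_eq_of_notMem fun y hy => ?_
        rcases Finset.mem_insert.1 hy with h4 | h4
        · rw [h4, add_zero]; exact hz
        · exact hw y h4
      have h1 := wt_le hq (hu.trans hm) (hval.mono (le_upd S a) hu)
      rw [h2, wq_eq hm]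
      linarith

/-! ### the sum over the classes -/

omit [Nonempty ι] in
lemma sum_classes {A : Type*} [Fintype A] [DecidableEq A] (E' : Finset (Site (n + 1)))
    (g : Site (n + 1) → A) (hg : Set.InjOn g E') (v : Site (n + 1) → ℝ) (w : ℝ)
    [∀ α, Decidable (∃ y ∈ E', g y = α)] :
    ∑ α : A, (if ∃ y ∈ E', g y = α then ∑ y ∈ E', (if g y = α then v y else 0) else w) =
      ∑ y ∈ E', v y + ((Fintype.card A : ℝ) - E'.card) * w := by
  classical
  set I : Finset A := E'.image g with hI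
  have hc : I.card = E'.card := Finset.card_image_of_injOn hg
  rw [← Finset.sum_add_sum_compl I]
  have h1 : ∑ α ∈ I, (if ∃ y ∈ E', g y = α then ∑ y ∈ E', (if g y = α then v y else 0) else w) =
      ∑ y ∈ E', v y := by
    rw [Finset.sum_congr rfl (fun α hα => if_pos (by
      obtain ⟨y, hy, h⟩ := Finset.mem_image.1 hα
      exact ⟨y, hy, h⟩))]
    rw [Finset.sum_comm]
    refine Finset.sum_congr rfl fun y hy => ?_
    rw [Finset.sum_ite_eq, if_pos (Finset.mem_image_of_mem g hy)]
  have h2 : ∑ α ∈ Iᶜ, (if ∃ y ∈ E', g y = α then ∑ y ∈ E', (if g y = α then v y else 0) else w) =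
      ((Fintype.card A : ℝ) - E'.card) * w := by
    rw [Finset.sum_congr rfl (fun α hα => if_neg (by
      rintro ⟨y, hy, h⟩
      exact (Finset.mem_compl.1 hα) (Finset.mem_image.2 ⟨y, hy, h⟩)))]
    rw [Finset.sum_const, Finset.card_compl, nsmul_eq_mul, Nat.cast_sub, hc]
    rw [← Finset.card_univ]
    exact Finset.card_le_univ I
  rw [h1, h2]

omit [Nonempty ι] in
lemma sep_TS {N : ℕ} (hN : 2 * R < N) (α : Fin (n + 1) → ZMod N) : Sep R (TS N α) := by
  intro x hx y hy hxy
  have h1 : x - y ∈ box (n + 1) (2 * R) := by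
    rw [mem_box]
    intro i
    rw [Pi.sub_apply]
    push_cast
    exact hxy i
  have h2 : cls N x = cls N y := by rw [mem_TS.1 hx, mem_TS.1 hy]
  ext i
  have h3 : ((x i : ℤ) : ZMod N) = ((y i : ℤ) : ZMod N) := congrFun h2 i
  rw [ZMod.intCast_eq_intCast_iff_dvd_sub] at h3
  obtain ⟨t, ht⟩ := h3
  have h4 := hxy i
  have h5 : (2 * R : ℤ) < N := by exact_mod_cast hN
  by_contra hne
  have ht0 : t ≠ 0 := by
    rintro rfl
    apply hne
    omega
  have h6 : (N : ℤ) ≤ |y i - x i| := by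
    rw [ht, abs_mul, abs_of_nonneg (by positivity : (0 : ℤ) ≤ (N : ℤ))]
    have : 1 ≤ |t| := Int.one_le_abs ht0
    nlinarith [(Nat.cast_nonneg N : (0 : ℤ) ≤ (N : ℤ))]
  rw [abs_sub_comm] at h6
  linarith

omit [Nonempty ι] in
lemma cls_add_injOn {N : ℕ} (hN : 2 * R < N) (z : Site (n + 1)) {E' : Finset (Site (n + 1))}
    (hE : ∀ y ∈ E', ∀ k, |y k| ≤ R) : Set.InjOn (fun y => cls N (z + y)) E' := by
  intro x hx y hy hxy
  have h1 : z + x = z + y := by
    refine sep_TS hN (cls N (z + x)) (z + x) rfl (z + y) hxy.symm fun k => ?_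
    rw [Pi.add_apply, Pi.add_apply]
    have h2 := abs_le.1 (hE x hx k)
    have h3 := abs_le.1 (hE y hy k)
    rw [abs_le]
    constructor <;> linarith [h2.1, h2.2, h3.1, h3.2]
  exact add_left_cancel h1

lemma sum_ow (h : c.Ok q lam R) {N : ℕ} [NeZero N] (hN : 2 * R < N) (a : Dr (n + 1))
    (z : Site (n + 1)) :
    ∑ α : Fin (n + 1) → ZMod N, ow c q (TS N α) a z = wq q a z *
      (∑ y ∈ insert 0 (c.E (lb c a z)), vv c q (lb c a z) y +
        ((nT (n + 1) N : ℝ) - (insert 0 (c.E (lb c a z))).card) * c.φ (lb c a z)) := by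
  classical
  unfold ow
  rw [← Finset.mul_sum]
  congr 1
  have hE : ∀ y ∈ insert 0 (c.E (lb c a z)), ∀ k, |y k| ≤ (R : ℤ) := by
    intro y hy k
    rcases Finset.mem_insert.1 hy with h1 | h1
    · rw [h1]; simp
    · exact h.E_le _ y h1 k
  have h1 := sum_classes (insert 0 (c.E (lb c a z))) (fun y => cls N (z + y))
    (cls_add_injOn hN z hE) (vv c q (lb c a z)) (c.φ (lb c a z))
  have h2 : (Fintype.card (Fin (n + 1) → ZMod N) : ℝ) = nT (n + 1) N := by
    unfold nT
    rw [Finset.card_univ]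
  rw [h2] at h1
  rw [← h1]
  refine Finset.sum_congr rfl fun α _ => ?_
  simp only [mem_TS]

lemma sum_ch {N : ℕ} [NeZero N] (a : Dr (n + 1)) (f x : Site (n + 1)) :
    ∑ α : Fin (n + 1) → ZMod N, ch c q (TS N α) a f x =
      wq q a x * (q ^ (f 0) * c.φo (c.child (lb c a x) f)) := by
  classical
  unfold ch
  simp only [mem_TS]
  rw [Finset.sum_ite_eq, if_pos (Finset.mem_univ _)]

/-- the functional grows at most at the rate `lam` -/
theorem Psi_step (h : c.Ok q lam R) {N : ℕ} [NeZero N] (hN : 2 * R < N) (a : Dr (n + 1)) :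
    ∑ α : Fin (n + 1) → ZMod N, Psi c q (upd (TS N α) a) ≤
      ENNReal.ofReal (nT (n + 1) N + lam) * Psi c q a := by
  classical
  have hq := h.one_le
  have hq0 : (0 : ℝ) < q := by linarith
  -- the termwise bound
  have h1 : ∀ α : Fin (n + 1) → ZMod N, Psi c q (upd (TS N α) a) ≤
      ∑' z, ENNReal.ofReal (ow c q (TS N α) a z) +
        ∑ f ∈ nbrs (0 : Site (n + 1)), ∑' x, ENNReal.ofReal (ch c q (TS N α) a f x) := by
    intro α
    have h2 : ∀ z, ENNReal.ofReal (wt c q (upd (TS N α) a) z) ≤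
        ENNReal.ofReal (ow c q (TS N α) a z) +
          ∑ f ∈ nbrs (0 : Site (n + 1)), ENNReal.ofReal (ch c q (TS N α) a f (z - f)) := by
      intro z
      rw [← ENNReal.ofReal_sum_of_nonneg (fun f _ => ch_nonneg hq _ _ _ _),
        ← ENNReal.ofReal_add (ow_nonneg hq _ _ _)
          (Finset.sum_nonneg fun f _ => ch_nonneg hq _ _ _ _)]
      exact ENNReal.ofReal_le_ofReal (wt_upd_le h (sep_TS hN α) a z)
    refine (ENNReal.tsum_le_tsum h2).trans ?_
    rw [ENNReal.tsum_add]
    refine add_le_add le_rfl (le_of_eq ?_)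
    rw [Summable.tsum_finsetSum fun f _ => ENNReal.summable]
    refine Finset.sum_congr rfl fun f _ => ?_
    exact (Equiv.subRight f).tsum_eq (fun x => ENNReal.ofReal (ch c q (TS N α) a f x))
  refine (Finset.sum_le_sum fun α _ => h1 α).trans ?_
  rw [Finset.sum_add_distrib]
  have h3 : ∑ α : Fin (n + 1) → ZMod N, ∑' z, ENNReal.ofReal (ow c q (TS N α) a z) =
      ∑' z, ENNReal.ofReal (∑ α : Fin (n + 1) → ZMod N, ow c q (TS N α) a z) := by
    rw [← Summable.tsum_finsetSum fun f _ => ENNReal.summable]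
    refine tsum_congr fun z => ?_
    rw [ENNReal.ofReal_sum_of_nonneg fun α _ => ow_nonneg hq _ _ _]
  have h4 : ∑ α : Fin (n + 1) → ZMod N, ∑ f ∈ nbrs (0 : Site (n + 1)),
      ∑' x, ENNReal.ofReal (ch c q (TS N α) a f x) =
      ∑' x, ENNReal.ofReal (∑ f ∈ nbrs (0 : Site (n + 1)),
        ∑ α : Fin (n + 1) → ZMod N, ch c q (TS N α) a f x) := by
    rw [Finset.sum_comm]
    have h5 : ∀ f ∈ nbrs (0 : Site (n + 1)), ∑ α : Fin (n + 1) → ZMod N,
        ∑' x, ENNReal.ofReal (ch c q (TS N α) a f x) =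
        ∑' x, ENNReal.ofReal (∑ α : Fin (n + 1) → ZMod N, ch c q (TS N α) a f x) := by
      intro f _
      rw [← Summable.tsum_finsetSum fun f _ => ENNReal.summable]
      refine tsum_congr fun x => ?_
      rw [ENNReal.ofReal_sum_of_nonneg fun α _ => ch_nonneg hq _ _ _ _]
    rw [Finset.sum_congr rfl h5, ← Summable.tsum_finsetSum fun f _ => ENNReal.summable]
    refine tsum_congr fun x => ?_
    rw [ENNReal.ofReal_sum_of_nonneg fun f _ =>
      Finset.sum_nonneg fun α _ => ch_nonneg hq _ _ _ _]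
  rw [h3, h4, ← ENNReal.tsum_add]
  unfold Psi
  rw [← ENNReal.tsum_mul_left]
  refine ENNReal.tsum_le_tsum fun z => ?_
  have hT : (0 : ℝ) < nT (n + 1) N := by exact_mod_cast nT_pos (d := n + 1) N
  rw [← ENNReal.ofReal_mul (by have := h.lam_nonneg; linarith),
    ← ENNReal.ofReal_add (Finset.sum_nonneg fun α _ => ow_nonneg hq _ _ _)
      (Finset.sum_nonneg fun f _ => Finset.sum_nonneg fun α _ => ch_nonneg hq _ _ _ _)]
  refine ENNReal.ofReal_le_ofReal ?_
  rw [sum_ow h hN]
  simp only [sum_ch]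
  rw [← Finset.mul_sum, ← mul_add]
  unfold wt
  rw [← (lb_spec h a z).1]
  set i := lb c a z with hi
  have h6 : ∑ y ∈ insert 0 (c.E i), vv c q i y =
      q * c.φ (c.own i) + ∑ y ∈ c.E i, c.φo (c.tgt i y) := by
    rw [Finset.sum_insert (h.E_ne i)]
    congr 1
    · unfold vv; rw [if_pos rfl]
    · refine Finset.sum_congr rfl fun y hy => ?_
      have hy0 : y ≠ 0 := by
        rintro rfl
        exact h.E_ne i hy
      unfold vv
      rw [if_neg hy0]
  rw [h6, Finset.card_insert_of_notMem (h.E_ne i)]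
  have h7 := h.ineq i
  have h8 : ((nT (n + 1) N : ℝ) + lam) * (wq q a z * (c.φ i : ℝ)) =
      wq q a z * (((nT (n + 1) N : ℝ) + lam) * c.φ i) := by ring
  rw [h8]
  refine mul_le_mul_of_nonneg_left ?_ (wq_nonneg hq a z)
  push_cast
  linarith

end

lemma dr_finite (w : List (Site (n + 1))) : {z | dr w z ≠ ⊥}.Finite := by
  classical
  induction w with
  | nil =>
    refine (Set.finite_singleton (0 : Site (n + 1))).subset fun z hz => ?_
    by_contra h
    exact hz (dr0_ne h)
  | cons x w ih =>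
    refine (ih.union (insert x (nbrs x)).finite_toSet).subset fun z hz => ?_
    by_contra h
    rw [Set.mem_union, not_or] at h
    obtain ⟨h1, h2⟩ := h
    apply hz
    have h1' : dr w z = ⊥ := by
      by_contra h3
      exact h1 h3
    rw [Finset.coe_insert, Set.mem_insert_iff, not_or] at h2
    change upd {x} (dr w) z = ⊥
    rw [upd_single, if_neg h2.1, if_neg (fun h3 => h2.2 (Finset.mem_coe.2 h3)), h1']

/-- label certificates give the functional of the upper bound interface -/
theorem hasPsi [Nonempty ι] {c : Cert n ι} {q lam : ℝ} {R : ℕ} (h : c.Ok q lam R) :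
    HasPsi n q lam (Psi c q) := by
  have hq := h.one_le
  refine ⟨⟨2 * R, fun N hN a => ?_⟩, fun a z m hm => ?_, fun w => ?_⟩
  · exact Psi_step h (N := N + 1) (by omega) a
  · have h1 : a z ≠ ⊥ := by
      intro h0
      rw [h0] at hm
      exact absurd hm (by simp)
    obtain ⟨k, hk⟩ := WithBot.ne_bot_iff_exists.1 h1
    have hk := hk.symm
    have h2 : m ≤ k := by
      rw [hk] at hm
      exact_mod_cast hm
    have h3 : q ^ (m + z 0) ≤ wt c q a z := by
      unfold wt
      rw [wq_eq hk]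
      have h4 : q ^ (m + z 0) ≤ q ^ (k + z 0) := zpow_le_zpow_right₀ hq (by linarith)
      have h5 : (1 : ℝ) ≤ mn c a z := by exact_mod_cast one_le_mn h a z
      have h6 : (0 : ℝ) ≤ q ^ (k + z 0) := by
        have : (0 : ℝ) < q := by linarith
        positivity
      nlinarith
    exact (ENNReal.ofReal_le_ofReal h3).trans (ENNReal.le_tsum z)
  · unfold Psi
    have h1 : ∀ z, z ∉ (dr_finite w).toFinset → ENNReal.ofReal (wt c q (dr w) z) = 0 := by
      intro z hz
      rw [Set.Finite.mem_toFinset] at hz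
      have hz' : dr w z = ⊥ := by
        by_contra h3
        exact hz h3
      rw [wt_bot hz', ENNReal.ofReal_zero]
    rw [tsum_eq_sum h1]
    exact (ENNReal.sum_lt_top.2 fun z _ => ENNReal.ofReal_lt_top).ne

end Pool.Agent.Lib.MP_67d80e_pr_lab
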