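import Pool.Agent.Lib.MP_67d80e_pr_lab.Code

/-!
The boolean check of a table of labels and its soundness.
-/

set_option autoImplicit false

open scoped BigOperators ENNReal
open Pool.Agent.Lib.MP_67d80e_pr Pool.Agent.Lib.MP_67d80e_pr_all

namespace Pool.Agent.Lib.MP_67d80e_pr_lab

/-- the table of the labels -/
structure Tab where
  /-- number of labels -/
  N : ℕ
  /-- number of known sites -/
  m : ℕ → ℕ
  /-- weight -/
  ph : ℕ → ℕ
  /-- own target: label -/
  ot : ℕ → ℕ
  /-- own target: symmetry -/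
  oh : ℕ → ℕ
  /-- target in a direction: label -/
  ct : ℕ → ℕ → ℕ
  /-- target in a direction: symmetry -/
  cs : ℕ → ℕ → ℕ
  /-- position of a known site -/
  ip : ℕ → ℕ → ℕ
  /-- level of a known site, plus one -/
  ik : ℕ → ℕ → ℕ
  /-- target of a ring at a known site: label -/
  it : ℕ → ℕ → ℕ
  /-- target of a ring at a known site: symmetry -/
  ih : ℕ → ℕ → ℕ

/-- the constants of the code -/
structure Cst where
  /-- number of positions -/
  P : ℕ
  /-- centre of the star patterns -/
  M : ℕ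
  /-- position of the origin -/
  O : ℕ
  /-- number of directions -/
  ns : ℕ
  /-- column patterns -/
  pat : ℕ → ℕ
  /-- star patterns -/
  rp : ℕ → ℕ
  /-- inner positions -/
  inn : ℕ → Bool
  /-- positions of neighbours of the origin -/
  isn : ℕ → Bool
  /-- positions of the directions -/
  dp : ℕ → ℕ
  /-- symmetries acting on positions -/
  sig : ℕ → ℕ → ℕ
  /-- numerator of `q` -/
  qa : ℕ
  /-- denominator of `q` -/
  qb : ℕ
  /-- numerator of the rate -/
  la : ℕ
  /-- denominator of the rate -/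
  ld : ℕ

/-- evaluation of the argument first -/
def fc {α : Type} (f : ℕ → α) (x : ℕ) : α := Nat.rec (f 0) (fun k _ => f (Nat.succ k)) x

lemma fc_eq {α : Type} (f : ℕ → α) (x : ℕ) : fc f x = f x := by
  cases x <;> rfl

/-- a bit -/
def bt (c N : ℕ) : Bool := Nat.beq (Nat.mod (Nat.shiftRight c N) 2) 1

/-- conjunction of `f k` for `k < n` -/
def allN (n : ℕ) (f : ℕ → Bool) : Bool :=
  Nat.rec true (fun k ih => cond (f k) ih false) n

/-- the sum of `f k` over `k < n` -/
def sumN (n : ℕ) (f : ℕ → ℕ) : ℕ :=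
  Nat.rec 0 (fun k ih => Nat.add (f k) ih) n

/-- the code of the label `i` -/
def cd (T : Tab) (C : Cst) (i : ℕ) : ℕ :=
  Nat.rec 0 (fun j acc => Nat.lor (Nat.shiftLeft (C.pat (T.ik i j)) (T.ip i j)) acc) (T.m i)

/-- the code of the image of the label `i` under the symmetry `h` -/
def cdh0 (T : Tab) (C : Cst) (i h : ℕ) : ℕ :=
  Nat.rec 0 (fun j acc => Nat.lor (Nat.shiftLeft (C.pat (T.ik i j)) (C.sig h (T.ip i j))) acc)
    (T.m i)

/-- the same, with the symmetry evaluated first -/
def cdh (T : Tab) (C : Cst) (i h : ℕ) : ℕ := fc (fun h => cdh0 T C i h) h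

lemma cdh_eq (T : Tab) (C : Cst) (i h : ℕ) : cdh T C i h = cdh0 T C i h := fc_eq _ _

/-- the star of level `k` at position `p` -/
def star (C : Cst) (k p : ℕ) : ℕ := Nat.shiftLeft (C.rp k) (Nat.sub p C.M)

/-- the label `t` is implied by the code `c` -/
def sub (T : Tab) (C : Cst) (t c : ℕ) : Bool :=
  fc (fun t => and (Nat.ble (Nat.succ t) T.N) (Nat.beq (Nat.land (cd T C t) c) (cd T C t))) t

lemma sub_eq (T : Tab) (C : Cst) (t c : ℕ) : sub T C t c =
    and (Nat.ble (Nat.succ t) T.N) (Nat.beq (Nat.land (cd T C t) c) (cd T C t)) := fc_eq _ _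

/-- the check of the own target -/
def chkO (T : Tab) (C : Cst) (i : ℕ) : Bool :=
  sub T C (T.ot i) (Nat.lor (Nat.shiftRight (cdh T C i (T.oh i)) C.P) (star C 0 C.O))

/-- the neighbour in direction `s` is known to be at least as high -/
def kn (T : Tab) (C : Cst) (i s : ℕ) : Bool := bt (cd T C i) (Nat.add (C.dp s) C.P)

/-- the code `c` seen from the position `f` -/
def shc (C : Cst) (c f : ℕ) : ℕ :=
  cond (Nat.ble C.O f) (Nat.shiftRight c (Nat.sub f C.O)) (Nat.shiftLeft c (Nat.sub C.O f))

/-- the check of the target in direction `s` -/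
def chkC (T : Tab) (C : Cst) (i s : ℕ) : Bool :=
  or (kn T C i s) (sub T C (T.ct i s)
    (Nat.lor (shc C (cdh T C i (T.cs i s)) (C.sig (T.cs i s) (C.dp s)))
      (star C 1 (Nat.sub (Nat.mul 2 C.O) (C.sig (T.cs i s) (C.dp s))))))

/-- a ring at the known site `j` creates the centre anew -/
def kil (T : Tab) (C : Cst) (i j : ℕ) : Bool := and (C.isn (T.ip i j)) (Nat.ble 2 (T.ik i j))

/-- the check of the known site `j` -/
def chkI (T : Tab) (C : Cst) (i j : ℕ) : Bool :=
  and (C.inn (T.ip i j)) (and (not (Nat.beq (T.ip i j) C.O))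
    (and (or (Nat.beq j 0) (Nat.ble (Nat.succ (T.ip i (Nat.pred j))) (T.ip i j)))
      (or (kil T C i j) (sub T C (T.it i j)
        (Nat.lor (cdh T C i (T.ih i j))
          (star C (T.ik i j) (C.sig (T.ih i j) (T.ip i j))))))))

/-- the weight of a direction -/
def ws (C : Cst) (s : ℕ) : ℕ :=
  cond (Nat.beq s 0) (Nat.mul C.qa C.qa) (cond (Nat.beq s 1) (Nat.mul C.qb C.qb)
    (Nat.mul C.qa C.qb))

/-- the weight of a label, with the label evaluated first -/
def phf (T : Tab) (t : ℕ) : ℕ := fc (fun t => T.ph t) t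

lemma phf_eq (T : Tab) (t : ℕ) : phf T t = T.ph t := fc_eq _ _

/-- the total weight -/
def tot (T : Tab) (C : Cst) (i : ℕ) : ℕ :=
  Nat.add (Nat.mul (Nat.mul C.qa C.qa) (phf T (T.ot i)))
    (Nat.add (sumN C.ns (fun s => cond (kn T C i s) 0 (Nat.mul (ws C s) (phf T (T.ct i s)))))
      (Nat.mul (Nat.mul C.qa C.qb)
        (sumN (T.m i) (fun j => cond (kil T C i j) 0 (phf T (T.it i j))))))

/-- the check of the label `i` -/
def chk (T : Tab) (C : Cst) (i : ℕ) : Bool :=
  and (Nat.ble 1 (T.ph i)) (and (chkO T C i) (and (allN C.ns (chkC T C i))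
    (and (allN (T.m i) (chkI T C i))
      (Nat.ble (Nat.mul C.ld (tot T C i))
        (Nat.mul (Nat.mul (Nat.add C.la (Nat.mul C.ld (Nat.succ (T.m i)))) (Nat.mul C.qa C.qb))
          (T.ph i))))))

/-! ### soundness -/

lemma allN_spec {n : ℕ} {f : ℕ → Bool} (h : allN n f = true) {k : ℕ} (hk : k < n) :
    f k = true := by
  induction n with
  | zero => omega
  | succ n ih =>
    have h' : cond (f n) (allN n f) false = true := h
    cases hf : f n with
    | false => rw [hf] at h'; simp at h'
    | true =>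
      rw [hf] at h'
      rcases Nat.lt_succ_iff_lt_or_eq.1 hk with h1 | h1
      · exact ih h' h1
      · rw [h1]; exact hf

lemma sumN_eq (n : ℕ) (f : ℕ → ℕ) : sumN n f = ∑ k ∈ Finset.range n, f k := by
  induction n with
  | zero => rfl
  | succ n ih =>
    change f n + sumN n f = _
    rw [Finset.sum_range_succ, ← ih, add_comm (f n)]

lemma bt_eq (c N : ℕ) : bt c N = c.testBit N := by
  unfold bt
  rw [Nat.testBit_eq_decide_div_mod_eq, ← Nat.shiftRight_eq_div_pow]
  change Nat.beq ((c >>> N) % 2) 1 = decide ((c >>> N) % 2 = 1)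
  rcases Nat.mod_two_eq_zero_or_one (c >>> N) with h | h <;> rw [h] <;> rfl

lemma band_iff {a b : Bool} : (and a b) = true ↔ a = true ∧ b = true := by
  cases a <;> cases b <;> simp

lemma bor_iff {a b : Bool} : (or a b) = true ↔ a = true ∨ b = true := by
  cases a <;> cases b <;> simp

lemma bnot_iff {a : Bool} : (not a) = true ↔ a = false := by
  cases a <;> simp

lemma beq_iff {a b : ℕ} : Nat.beq a b = true ↔ a = b := Nat.beq_eq ▸ Iff.rfl

lemma ble_iff {a b : ℕ} : Nat.ble a b = true ↔ a ≤ b := Nat.ble_eq ▸ Iff.rfl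

variable {n r : ℕ}

/-- the conditions on the constants -/
structure CstOk (n r : ℕ) (C : Cst) : Prop where
  r_pos : 1 ≤ r
  P_eq : C.P = Pn n r
  O_eq : C.O = ofs n r
  M_le : ∀ y : Site (n + 1), InB r y → C.M ≤ pc r y
  ns_eq : C.ns = 2 * (n + 1)
  pat_ok : ∀ k < 4, ∀ N, (C.pat k).testBit N = true ↔ ∃ k' ≤ k, N = Pn n r * k'
  rp_ok : ∀ k < 4, StarBits n r C.M k (C.rp k)
  inn_ok : ∀ p, C.inn p = true → ∃ y : Site (n + 1), InB r y ∧ pc r y = p
  isn_ok : ∀ y : Site (n + 1), InB r y → C.isn (pc r y) = true → y ∈ nbrs (0 : Site (n + 1))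
  dp_ok : ∀ i : Fin (n + 1), C.dp (2 * i) = pc r (e i : Site (n + 1)) ∧
    C.dp (2 * i + 1) = pc r (-e i : Site (n + 1))
  sig_ok : ∀ h, ∃ g : GG n, ∀ y, InB r y → InB r (g.f y) ∧ C.sig h (pc r y) = pc r (g.f y)
  qb_pos : 0 < C.qb
  qa_ge : C.qb ≤ C.qa
  ld_pos : 0 < C.ld

/-- the number `q` -/
noncomputable def Cst.q (C : Cst) : ℝ := C.qa / C.qb

/-- the rate -/
noncomputable def Cst.lam (C : Cst) : ℝ := C.la / C.ld

lemma testBit_cdh {T : Tab} {C : Cst} (hC : CstOk n r C) (hT : ∀ i j, T.ik i j < 4) {i h N : ℕ}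
    (hN : (cdh T C i h).testBit N = true) :
    ∃ j < T.m i, ∃ k' ≤ T.ik i j, N = C.sig h (T.ip i j) + Pn n r * k' := by
  rw [cdh_eq] at hN
  unfold cdh0 at hN
  revert hN
  induction T.m i with
  | zero =>
    intro hN
    change (0 : ℕ).testBit N = true at hN
    exact absurd hN (by simp)
  | succ m ih =>
    intro hN
    change ((C.pat (T.ik i m)) <<< (C.sig h (T.ip i m)) ||| _).testBit N = true at hN
    rw [Nat.testBit_or, Bool.or_eq_true] at hN
    rcases hN with hN | hN
    · rw [Nat.testBit_shiftLeft, Bool.and_eq_true, decide_eq_true_eq] at hN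
      obtain ⟨h1, h2⟩ := hN
      obtain ⟨k', h3, h4⟩ := (hC.pat_ok _ (hT i m) _).1 h2
      exact ⟨m, Nat.lt_succ_self m, k', h3, by omega⟩
    · obtain ⟨j, h1, h2⟩ := ih hN
      exact ⟨j, Nat.lt_succ_of_lt h1, h2⟩

lemma testBit_cd {T : Tab} {C : Cst} (hC : CstOk n r C) (hT : ∀ i j, T.ik i j < 4) {i N : ℕ} :
    (cd T C i).testBit N = true ↔ ∃ j < T.m i, ∃ k' ≤ T.ik i j, N = T.ip i j + Pn n r * k' := by
  unfold cd
  induction T.m i with
  | zero => simp
  | succ m ih =>
    change ((C.pat (T.ik i m)) <<< (T.ip i m) ||| _).testBit N = true ↔ _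
    rw [Nat.testBit_or, Bool.or_eq_true, ih, Nat.testBit_shiftLeft, Bool.and_eq_true,
      decide_eq_true_eq]
    constructor
    · rintro (⟨h1, h2⟩ | ⟨j, h1, h2⟩)
      · obtain ⟨k', h3, h4⟩ := (hC.pat_ok _ (hT i m) _).1 h2
        exact ⟨m, Nat.lt_succ_self m, k', h3, by omega⟩
      · exact ⟨j, Nat.lt_succ_of_lt h1, h2⟩
    · rintro ⟨j, h1, k', h3, h4⟩
      rcases Nat.lt_succ_iff_lt_or_eq.1 h1 with h5 | h5
      · exact Or.inr ⟨j, h5, k', h3, h4⟩
      · subst h5
        refine Or.inl ⟨by omega, (hC.pat_ok _ (hT i j) _).2 ⟨k', h3, by omega⟩⟩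

/-- the lower bounds of the label `i` -/
def KK (n r : ℕ) (T : Tab) (i : ℕ) : Set (Site (n + 1) × ℤ) :=
  {p | ∃ j < T.m i, p = (pos n r (T.ip i j), (T.ik i j : ℤ) - 1)}

/-- what the check of a label says -/
structure Spec (T : Tab) (C : Cst) (i : ℕ) : Prop where
  ph : 1 ≤ T.ph i
  o : chkO T C i = true
  c : ∀ s < C.ns, chkC T C i s = true
  inn : ∀ j < T.m i, C.inn (T.ip i j) = true
  ne : ∀ j < T.m i, T.ip i j ≠ C.O
  inc : ∀ j, j + 1 < T.m i → T.ip i j < T.ip i (j + 1)
  it : ∀ j < T.m i, kil T C i j = true ∨ sub T C (T.it i j)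
        (Nat.lor (cdh T C i (T.ih i j)) (star C (T.ik i j) (C.sig (T.ih i j) (T.ip i j)))) = true
  w : C.ld * tot T C i ≤ (C.la + C.ld * (T.m i + 1)) * (C.qa * C.qb) * T.ph i

lemma spec {T : Tab} {C : Cst} {i : ℕ} (h : chk T C i = true) : Spec T C i := by
  unfold chk at h
  simp only [band_iff, ble_iff] at h
  obtain ⟨h1, h2, h3, h4, h5⟩ := h
  have h6 : ∀ j < T.m i, chkI T C i j = true := fun j hj => allN_spec h4 hj
  refine ⟨h1, h2, fun s hs => allN_spec h3 hs, fun j hj => ?_, fun j hj => ?_, fun j hj => ?_,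
    fun j hj => ?_, h5⟩
  · have := h6 j hj
    unfold chkI at this
    simp only [band_iff] at this
    exact this.1
  · have := h6 j hj
    unfold chkI at this
    simp only [band_iff, bnot_iff] at this
    intro h7
    have h8 := this.2.1
    rw [h7] at h8
    have h9 : Nat.beq C.O C.O = true := beq_iff.2 rfl
    rw [h9] at h8
    exact absurd h8 (by simp)
  · have := h6 (j + 1) hj
    unfold chkI at this
    simp only [band_iff, bor_iff, beq_iff, ble_iff] at this
    rcases this.2.2.1 with h7 | h7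
    · omega
    · exact h7
  · have := h6 j hj
    unfold chkI at this
    simp only [band_iff, bor_iff] at this
    exact this.2.2.2

lemma Spec.lt {T : Tab} {C : Cst} {i : ℕ} (h : Spec T C i) {j j' : ℕ} (hj' : j' < T.m i)
    (hjj : j < j') : T.ip i j < T.ip i j' := by
  induction j' with
  | zero => omega
  | succ j' ih =>
    rcases Nat.lt_succ_iff_lt_or_eq.1 hjj with h1 | h1
    · exact (ih (by omega) h1).trans (h.inc j' hj')
    · rw [h1]; exact h.inc j' hj'

lemma Spec.ps {T : Tab} {C : Cst} (hC : CstOk n r C) {i : ℕ} (h : Spec T C i) {j : ℕ}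
    (hj : j < T.m i) : InB r (pos n r (T.ip i j)) ∧ pc r (pos n r (T.ip i j)) = T.ip i j := by
  obtain ⟨y, h1, h2⟩ := hC.inn_ok _ (h.inn j hj)
  have h3 : T.ip i j < Pn n r := by
    rw [← h2]
    exact pc_lt (h1.mono (Nat.le_succ r))
  have h4 := pc_pos (n := n) (r := r) h3
  have h5 : pos n r (T.ip i j) = y := by
    have h6 : pc r (pos n r (T.ip i j)) + Pn n r * 0 = pc r y + Pn n r * 0 := by
      rw [h4, h2]
    exact (pc_inj (pos_inB _) (h1.mono (Nat.le_succ r)) h6).1
  rw [h5]
  exact ⟨h1, h2⟩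

lemma Spec.inj {T : Tab} {C : Cst} (hC : CstOk n r C) {i : ℕ} (h : Spec T C i) {j j' : ℕ}
    (hj : j < T.m i) (hj' : j' < T.m i) (he : MP_67d80e_pr_lab.pos n r (T.ip i j) =
      MP_67d80e_pr_lab.pos n r (T.ip i j')) : j = j' := by
  have h1 := (h.ps hC hj).2
  have h2 := (h.ps hC hj').2
  rw [he, h2] at h1
  rcases lt_trichotomy j j' with h3 | h3 | h3
  · have := h.lt hj' h3; omega
  · exact h3
  · have := h.lt hj h3; omega

/-- the code of the source label in a frame is meaningful -/
lemma W_source {T : Tab} {C : Cst} (hC : CstOk n r C) (hT : ∀ i j, T.ik i j < 4) {i : ℕ}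
    (h : Spec T C i) {a : Dr (n + 1)} (ha : V0 a (KK n r T i)) {g : GG n} {hh : ℕ}
    (hg : ∀ y, InB r y → InB r (g.f y) ∧ C.sig hh (pc r y) = pc r (g.f y)) :
    W r r (cdh T C i hh) (tw g.inv 0 a) := by
  intro N hN
  obtain ⟨j, hj, k', hk', h1⟩ := testBit_cdh hC hT hN
  obtain ⟨h2, h3⟩ := h.ps hC hj
  obtain ⟨h4, h5⟩ := hg _ h2
  refine ⟨g.f (MP_67d80e_pr_lab.pos n r (T.ip i j)), k', h4, ?_, ?_⟩
  · rw [h1, ← h5, h3]
  · refine Kn.mono ?_ hk'
    unfold Kn
    rw [tw_zero]
    unfold tw
    rw [zero_add]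
    change _ ≤ a (g.f.symm (g.f _))
    rw [AddEquiv.symm_apply_apply]
    exact ha _ ⟨j, hj, rfl⟩

/-- a target implied by a meaningful code is valid -/
lemma V0_target {T : Tab} {C : Cst} (hC : CstOk n r C) (hT : ∀ i j, T.ik i j < 4)
    (hall : ∀ i < T.N, Spec T C i) {t c : ℕ} (hs : sub T C t c = true) {a : Dr (n + 1)}
    (hW : W r (r + 1) c a) : t < T.N ∧ V0 a (KK n r T t) := by
  rw [sub_eq] at hs
  simp only [band_iff, ble_iff, beq_iff] at hs
  obtain ⟨h1, h2⟩ := hs
  refine ⟨h1, ?_⟩
  rintro p ⟨j, hj, rfl⟩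
  obtain ⟨h3, h4⟩ := (hall t h1).ps hC hj
  have h5 : (cd T C t).testBit (pc r (pos n r (T.ip t j)) + Pn n r * T.ik t j) = true := by
    rw [testBit_cd hC hT]
    exact ⟨j, hj, T.ik t j, le_rfl, by rw [h4]⟩
  exact hW.get (h3.mono (Nat.le_succ r)) (testBit_of_land_eq h2 h5)

open Classical in
/-- the index of a direction -/
noncomputable def sx (y : Site (n + 1)) : ℕ :=
  if h : ∃ i : Fin (n + 1), y = e i then 2 * (h.choose : ℕ)
  else if h : ∃ i : Fin (n + 1), y = -e i then 2 * (h.choose : ℕ) + 1 else 0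

lemma e_inj {i j : Fin (n + 1)} (h : (e i : Site (n + 1)) = e j) : i = j := by
  by_contra hne
  have := congrFun h i
  unfold e at this
  rw [Pi.single_eq_same, Pi.single_eq_of_ne hne] at this
  exact one_ne_zero this

lemma e_ne_neg (i j : Fin (n + 1)) : (e i : Site (n + 1)) ≠ -e j := by
  intro h
  have := congrFun h i
  unfold e at this
  rw [Pi.single_eq_same, Pi.neg_apply] at this
  by_cases hij : i = j
  · subst hij
    rw [Pi.single_eq_same] at this
    omega
  · rw [Pi.single_eq_of_ne hij] at this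
    omega

lemma sx_e (i : Fin (n + 1)) : sx (e i : Site (n + 1)) = 2 * i := by
  unfold sx
  have h : ∃ j : Fin (n + 1), (e i : Site (n + 1)) = e j := ⟨i, rfl⟩
  rw [dif_pos h, ← e_inj h.choose_spec]

lemma sx_neg (i : Fin (n + 1)) : sx (-e i : Site (n + 1)) = 2 * i + 1 := by
  unfold sx
  have h0 : ¬ ∃ j : Fin (n + 1), (-e i : Site (n + 1)) = e j := by
    rintro ⟨j, hj⟩
    exact e_ne_neg j i hj.symm
  have h : ∃ j : Fin (n + 1), (-e i : Site (n + 1)) = -e j := ⟨i, rfl⟩
  rw [dif_neg h0, dif_pos h, ← e_inj (neg_injective h.choose_spec)]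

lemma sx_lt {f : Site (n + 1)} (hf : f ∈ nbrs (0 : Site (n + 1))) : sx f < 2 * (n + 1) := by
  obtain ⟨i, h | h⟩ := mem_nbrs_zero.1 hf
  · rw [h, sx_e]; omega
  · rw [h, sx_neg]; omega

lemma dp_sx {C : Cst} (hC : CstOk n r C) {f : Site (n + 1)} (hf : f ∈ nbrs (0 : Site (n + 1))) :
    C.dp (sx f) = pc r f := by
  obtain ⟨i, h | h⟩ := mem_nbrs_zero.1 hf
  · rw [h, sx_e]; exact (hC.dp_ok i).1
  · rw [h, sx_neg]; exact (hC.dp_ok i).2

/-- the symmetry of a code -/
noncomputable def gs {C : Cst} (hC : CstOk n r C) (h : ℕ) : GG n := (hC.sig_ok h).choose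

lemma gs_spec {C : Cst} (hC : CstOk n r C) (h : ℕ) : ∀ y, InB r y →
    InB r ((gs hC h).f y) ∧ C.sig h (pc r y) = pc r ((gs hC h).f y) :=
  (hC.sig_ok h).choose_spec

/-- a label -/
def toF (T : Tab) (b : Fin T.N) (t : ℕ) : Fin T.N := if h : t < T.N then ⟨t, h⟩ else b

lemma toF_val {T : Tab} {b : Fin T.N} {t : ℕ} (h : t < T.N) : (toF T b t : ℕ) = t := by
  unfold toF; rw [dif_pos h]

open Classical in
/-- the certificate of a table -/
noncomputable def cert (T : Tab) {C : Cst} (hC : CstOk n r C) : BCert n (Fin T.N) where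
  K b := KK n r T b
  φ b := T.ph b
  own b := (toF T b (T.ot b), (gs hC (T.oh b)).inv)
  E b := (Finset.range (T.m b)).image fun j => pos n r (T.ip b j)
  tgt b y := if h : ∃ j, j < T.m b ∧ pos n r (T.ip b j) = y then
    (if kil T C b h.choose then none else
      some (toF T b (T.it b h.choose), (gs hC (T.ih b h.choose)).inv)) else none
  child b y := if kn T C b (sx y) then none else
    some (toF T b (T.ct b (sx y)), (gs hC (T.cs b (sx y))).inv)

lemma cert_tgt {T : Tab} {C : Cst} (hC : CstOk n r C) {b : Fin T.N} (h : Spec T C b) {j : ℕ}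
    (hj : j < T.m b) : (cert T hC).tgt b (pos n r (T.ip b j)) =
    if kil T C b j then none else some (toF T b (T.it b j), (gs hC (T.ih b j)).inv) := by
  unfold cert
  have hex : ∃ j', j' < T.m b ∧ pos n r (T.ip b j') = pos n r (T.ip b j) := ⟨j, hj, rfl⟩
  dsimp only
  rw [dif_pos hex]
  have h1 : hex.choose = j := h.inj hC hex.choose_spec.1 hj hex.choose_spec.2
  rw [h1]

lemma sum_nbrs (F : Site (n + 1) → ℝ) (G : ℕ → ℝ)
    (h : ∀ f ∈ nbrs (0 : Site (n + 1)), F f = G (sx f)) :
    ∑ f ∈ nbrs (0 : Site (n + 1)), F f = ∑ s ∈ Finset.range (2 * (n + 1)), G s := by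
  refine Finset.sum_nbij sx (fun f hf => Finset.mem_range.2 (sx_lt hf)) ?_ ?_ h
  · intro f hf g hg hfg
    obtain ⟨i, h1 | h1⟩ := mem_nbrs_zero.1 hf <;> obtain ⟨j, h2 | h2⟩ := mem_nbrs_zero.1 hg <;>
      subst h1 <;> subst h2 <;> simp only [sx_e, sx_neg] at hfg
    · congr 1; ext; omega
    · omega
    · omega
    · congr 2; ext; omega
  · intro s hs
    rw [Finset.mem_coe, Finset.mem_range] at hs
    rcases Nat.even_or_odd' s with ⟨k, h1 | h1⟩
    · exact ⟨e ⟨k, by omega⟩, Finset.mem_coe.2 (mem_nbrs_zero.2 ⟨_, Or.inl rfl⟩),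
        (sx_e _).trans h1.symm⟩
    · exact ⟨-e ⟨k, by omega⟩, Finset.mem_coe.2 (mem_nbrs_zero.2 ⟨_, Or.inr rfl⟩),
        (sx_neg _).trans h1.symm⟩

theorem cert_ok {T : Tab} {C : Cst} (hC : CstOk n r C) (hT : ∀ i j, T.ik i j < 4)
    (hroot : ∃ i < T.N, T.m i = 0) (hall : ∀ i < T.N, Spec T C i) :
    (cert T hC).Ok C.q C.lam r where
  one_le := by
    unfold Cst.q
    have h1 : (0 : ℝ) < C.qb := by exact_mod_cast hC.qb_pos
    rw [le_div_iff₀ h1, one_mul]
    exact_mod_cast hC.qa_ge
  lam_nonneg := by unfold Cst.lam; positivity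
  root := by
    obtain ⟨i, hi, h0⟩ := hroot
    refine ⟨⟨i, hi⟩, ?_⟩
    change KK n r T i = ∅
    unfold KK
    rw [Set.eq_empty_iff_forall_notMem]
    rintro p ⟨j, hj, -⟩
    rw [h0] at hj
    omega
  pos i := (hall i i.2).ph
  own_ok i a ha := by
    have hs := hall i i.2
    have h1 := W_source hC hT hs ha (gs_spec hC (T.oh i))
    have h2 := W.own (hC.rp_ok 0 (by norm_num)) (by
      have := hC.M_le 0 (inB_zero r)
      have hpc0 : pc r (0 : Site (n + 1)) = ofs n r := by
        have := pc_cast (inB_zero (n := n) (r + 1)) (r := r)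
        rw [lin_zero, zero_add] at this
        exact_mod_cast this
      rwa [hpc0] at this) h1
    have h3 := hs.o
    unfold chkO star at h3
    rw [hC.P_eq, hC.O_eq] at h3
    obtain ⟨h4, h5⟩ := V0_target hC hT hall h3 h2
    change V0 (tw (gs hC (T.oh i)).inv 0 (upd {0} a)) (KK n r T (toF T i (T.ot i)))
    rw [toF_val h4]
    have h6 := tw_upd (gs hC (T.oh i)).inv 0 0 a
    rw [map_zero, add_zero] at h6
    rw [h6]
    exact h5
  E_ne i := by
    classical
    intro h0
    obtain ⟨j, hj, h1⟩ := Finset.mem_image.1 h0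
    rw [Finset.mem_range] at hj
    have hs := hall i i.2
    obtain ⟨h2, h3⟩ := hs.ps hC hj
    rw [h1] at h3
    apply hs.ne j hj
    rw [← h3, hC.O_eq]
    have := pc_cast (inB_zero (n := n) (r + 1)) (r := r)
    rw [lin_zero, zero_add] at this
    exact_mod_cast this
  E_le i y hy := by
    classical
    obtain ⟨j, hj, rfl⟩ := Finset.mem_image.1 hy
    rw [Finset.mem_range] at hj
    exact ((hall i i.2).ps hC hj).1
  kill_ok i y hy ht a hne ha := by
    classical
    obtain ⟨j, hj, rfl⟩ := Finset.mem_image.1 hy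
    rw [Finset.mem_range] at hj
    have hs := hall i i.2
    rw [cert_tgt hC hs hj] at ht
    by_cases hk : kil T C i j = true
    · unfold kil at hk
      simp only [band_iff, ble_iff] at hk
      obtain ⟨h1, h2⟩ := hk
      obtain ⟨h3, h4⟩ := hs.ps hC hj
      rw [← h4] at h1
      refine ⟨hC.isn_ok _ h3 h1, ?_⟩
      have h5 := ha _ ⟨j, hj, rfl⟩
      refine lt_of_lt_of_le ?_ h5
      obtain ⟨b, hb⟩ := WithBot.ne_bot_iff_exists.1 hne
      rw [← hb]
      have h6 : b < b + ((T.ik i j : ℤ) - 1) := by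
        have : (2 : ℤ) ≤ T.ik i j := by exact_mod_cast h2
        linarith
      exact_mod_cast h6
    · rw [if_neg hk] at ht
      exact absurd ht (by simp)
  tgt_ok i y hy t ht a hne ha hle := by
    classical
    obtain ⟨j, hj, rfl⟩ := Finset.mem_image.1 hy
    rw [Finset.mem_range] at hj
    have hs := hall i i.2
    rw [cert_tgt hC hs hj] at ht
    by_cases hk : kil T C i j = true
    · rw [if_pos hk] at ht
      exact absurd ht (by simp)
    · rw [if_neg hk, Option.some_inj] at ht
      subst ht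
      rcases hs.it j hj with h0 | h0
      · exact absurd h0 hk
      obtain ⟨h3, h4⟩ := hs.ps hC hj
      set g := gs hC (T.ih i j) with hg
      have hgs := gs_spec hC (T.ih i j)
      have h1 := W_source hC hT hs ha hgs
      obtain ⟨h5, h6⟩ := hgs _ h3
      rw [h4] at h6
      rw [← hg] at h5 h6 h1
      have hne0 : pos n r (T.ip i j) ≠ 0 := by
        intro h7
        apply hs.ne j hj
        rw [← h4, h7, hC.O_eq]
        have := pc_cast (inB_zero (n := n) (r + 1)) (r := r)
        rw [lin_zero, zero_add] at this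
        exact_mod_cast this
      have hgne0 : g.f (pos n r (T.ip i j)) ≠ 0 := by
        rw [Ne, map_eq_zero_iff g.f g.f.injective]
        exact hne0
      have hsym : ∀ y, g.inv.f (g.f y) = y := fun y => g.f.symm_apply_apply y
      have h2 := W.ring (hC.rp_ok (T.ik i j) (hT i j)) h5 hgne0 (hC.M_le _ h5) h1
        (k := T.ik i j) (by
          unfold Kn
          rw [tw_zero]
          unfold tw
          rw [zero_add, hsym]
          exact ha _ ⟨j, hj, rfl⟩) (fun h7 => by
          rw [tw_zero]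
          unfold tw
          rw [zero_add, hsym]
          exact hle ((g.nbr _).1 h7))
      unfold star at h0
      rw [h6] at h0
      obtain ⟨h8, h9⟩ := V0_target hC hT hall h0 h2
      change V0 (tw g.inv 0 (upd {pos n r (T.ip i j)} a)) (KK n r T (toF T i (T.it i j)))
      rw [toF_val h8]
      have h10 := tw_upd g.inv 0 (g.f (pos n r (T.ip i j))) a
      rw [hsym, zero_add] at h10
      rw [h10]
      exact h9
  nochild_ok i f hf hc a hne ha := by
    classical
    have hs := hall i i.2
    change (if kn T C i (sx f) then none else _) = none at hc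
    by_cases hk : kn T C i (sx f) = true
    · unfold kn at hk
      rw [bt_eq] at hk
      have h1 : (cd T C i).testBit (pc r f + Pn n r * 1) = true := by
        rw [mul_one, ← hC.P_eq, ← dp_sx hC hf]
        exact hk
      obtain ⟨j, hj, k', hk', h2⟩ := (testBit_cd hC hT).1 h1
      obtain ⟨h3, h4⟩ := hs.ps hC hj
      have hf1 : InB (r + 1) f := (nbr_inB hf).mono (by omega)
      rw [← h4] at h2
      obtain ⟨h5, h6⟩ := pc_inj hf1 (h3.mono (Nat.le_succ r)) h2
      have h7 := ha _ ⟨j, hj, rfl⟩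
      dsimp only at h7
      rw [← h5] at h7
      refine le_trans ?_ h7
      obtain ⟨b, hb⟩ := WithBot.ne_bot_iff_exists.1 hne
      rw [← hb]
      have h6 : b ≤ b + ((T.ik i j : ℤ) - 1) := by
        have : (1 : ℤ) ≤ T.ik i j := by
          have : 1 ≤ T.ik i j := by omega
          exact_mod_cast this
        linarith
      exact_mod_cast h6
    · rw [if_neg hk] at hc
      exact absurd hc (by simp)
  child_ok i f hf t hc a hne ha hlt := by
    classical
    have hs := hall i i.2
    change (if kn T C i (sx f) then none else _) = some t at hc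
    by_cases hk : kn T C i (sx f) = true
    · rw [if_pos hk] at hc
      exact absurd hc (by simp)
    · rw [if_neg hk, Option.some_inj] at hc
      subst hc
      have hsx : sx f < C.ns := by rw [hC.ns_eq]; exact sx_lt hf
      have h0 := hs.c _ hsx
      unfold chkC at h0
      rw [bor_iff] at h0
      rcases h0 with h0 | h0
      · exact absurd h0 hk
      set g := gs hC (T.cs i (sx f)) with hg
      have hgs := gs_spec hC (T.cs i (sx f))
      have h1 := W_source hC hT hs ha hgs
      have hfr : InB r f := (nbr_inB hf).mono hC.r_pos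
      obtain ⟨h5, h6⟩ := hgs _ hfr
      rw [← hg] at h5 h6 h1
      have hgf : g.f f ∈ nbrs (0 : Site (n + 1)) := (g.nbr f).2 hf
      have hngf : InB r (-g.f f) := h5.neg
      have hsym : ∀ y, g.inv.f (g.f y) = y := fun y => g.f.symm_apply_apply y
      have h2 := W.child hC.r_pos (hC.rp_ok 1 (by norm_num)) hgf (hC.M_le _ hngf) h1 (by
        rw [tw_zero]
        unfold tw
        rw [zero_add, hsym]
        exact hlt)
      have h7 : 2 * C.O - pc r (g.f f) = pc r (-g.f f) := by
        have h8 := pc_cast (h5.mono (Nat.le_succ r))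
        have h9 := pc_cast (hngf.mono (Nat.le_succ r))
        rw [lin_neg] at h9
        rw [hC.O_eq]
        omega
      rw [dp_sx hC hf, h6] at h0
      unfold star shc at h0
      have h10 : Nat.sub (Nat.mul 2 C.O) (pc r (g.f f)) = pc r (-g.f f) := h7
      rw [h10, hC.O_eq] at h0
      have h11 : ∀ c : ℕ, cond (Nat.ble (ofs n r) (pc r (g.f f)))
          (Nat.shiftRight c (Nat.sub (pc r (g.f f)) (ofs n r)))
          (Nat.shiftLeft c (Nat.sub (ofs n r) (pc r (g.f f)))) =
          if ofs n r ≤ pc r (g.f f) then c >>> (pc r (g.f f) - ofs n r) else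
            c <<< (ofs n r - pc r (g.f f)) := by
        intro c
        by_cases h12 : ofs n r ≤ pc r (g.f f)
        · rw [if_pos h12, ble_iff.2 h12]; rfl
        · rw [if_neg h12]
          have : Nat.ble (ofs n r) (pc r (g.f f)) = false := by
            rw [← Bool.not_eq_true, ble_iff]; exact h12
          rw [this]; rfl
      rw [h11] at h0
      obtain ⟨h8, h9⟩ := V0_target hC hT hall h0 h2
      change V0 (tw g.inv f (upd {0} a)) (KK n r T (toF T i (T.ct i (sx f))))
      rw [toF_val h8]
      have h13 : tw g.inv f (upd {0} a) = sh (g.f f) (upd {0} (tw g.inv 0 a)) := by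
        have h14 := tw_upd g.inv 0 0 a
        rw [map_zero, add_zero] at h14
        rw [← h14]
        ext y : 1
        unfold sh tw
        rw [map_add, hsym, zero_add]
      rw [h13]
      exact h9
  ineq i := by
    classical
    have hs := hall i i.2
    have hqb : (0 : ℝ) < C.qb := by exact_mod_cast hC.qb_pos
    have hqa : (0 : ℝ) < C.qa := lt_of_lt_of_le hqb (by exact_mod_cast hC.qa_ge)
    have hld : (0 : ℝ) < C.ld := by exact_mod_cast hC.ld_pos
    -- the followed sites
    have hinj : Set.InjOn (fun j => pos n r (T.ip i j)) (Finset.range (T.m i)) := by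
      intro j hj j' hj' hjj
      rw [Finset.mem_coe, Finset.mem_range] at hj hj'
      exact hs.inj hC hj hj' hjj
    have hcard : ((cert T hC).E i).card = T.m i := by
      change ((Finset.range (T.m i)).image _).card = _
      rw [Finset.card_image_of_injOn hinj, Finset.card_range]
    have hsumE : ∑ y ∈ (cert T hC).E i, (cert T hC).φo ((cert T hC).tgt i y) =
        ((sumN (T.m i) (fun j => cond (kil T C i j) 0 (phf T (T.it i j))) : ℕ) : ℝ) := by
      change ∑ y ∈ (Finset.range (T.m i)).image _, _ = _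
      rw [Finset.sum_image hinj, sumN_eq, Nat.cast_sum]
      refine Finset.sum_congr rfl fun j hj => ?_
      rw [Finset.mem_range] at hj
      rw [cert_tgt hC hs hj]
      by_cases hk : kil T C i j = true
      · rw [if_pos hk, hk]
        simp [BCert.φo]
      · rw [if_neg hk]
        rw [Bool.not_eq_true] at hk
        rw [hk]
        have hlt : T.it i j < T.N := by
          rcases hs.it j hj with h0 | h0
          · rw [hk] at h0; exact absurd h0 (by simp)
          · rw [sub_eq] at h0
            simp only [band_iff, ble_iff] at h0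
            exact h0.1
        change ((T.ph (toF T i (T.it i j)) : ℕ) : ℝ) = ((phf T (T.it i j) : ℕ) : ℝ)
        rw [toF_val hlt, phf_eq]
    -- the directions
    have hws : ∀ f ∈ nbrs (0 : Site (n + 1)), (C.qa * C.qb : ℝ) * C.q ^ (f 0) = ws C (sx f) := by
      intro f hf
      obtain ⟨k, h1 | h1⟩ := mem_nbrs_zero.1 hf
      · subst h1
        rw [sx_e]
        by_cases hk : k = 0
        · subst hk
          have h2 : (e (0 : Fin (n + 1)) : Site (n + 1)) 0 = 1 := by unfold e; simp
          have h3 : ws C (2 * ((0 : Fin (n + 1)) : ℕ)) = C.qa * C.qa := rfl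
          rw [h2, h3, zpow_one]
          unfold Cst.q
          push_cast
          field_simp
        · have h2 : (e k : Site (n + 1)) 0 = 0 := by
            unfold e
            rw [Pi.single_eq_of_ne (fun h => hk h.symm)]
          have hk0 : (k : ℕ) ≠ 0 := fun h => hk (Fin.ext h)
          have h3 : ws C (2 * (k : ℕ)) = C.qa * C.qb := by
            unfold ws
            have h4 : Nat.beq (2 * (k : ℕ)) 0 = false := by
              rw [← Bool.not_eq_true, beq_iff]; omega
            have h5 : Nat.beq (2 * (k : ℕ)) 1 = false := by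
              rw [← Bool.not_eq_true, beq_iff]; omega
            rw [h4, h5]; rfl
          rw [h2, h3, zpow_zero]
          push_cast
          ring
      · subst h1
        rw [sx_neg]
        by_cases hk : k = 0
        · subst hk
          have h2 : (-e (0 : Fin (n + 1)) : Site (n + 1)) 0 = -1 := by unfold e; simp
          have h3 : ws C (2 * ((0 : Fin (n + 1)) : ℕ) + 1) = C.qb * C.qb := rfl
          rw [h2, h3, zpow_neg_one]
          unfold Cst.q
          push_cast
          field_simp
        · have h2 : (-e k : Site (n + 1)) 0 = 0 := by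
            rw [Pi.neg_apply]
            unfold e
            rw [Pi.single_eq_of_ne (fun h => hk h.symm)]
            rfl
          have hk0 : (k : ℕ) ≠ 0 := fun h => hk (Fin.ext h)
          have h3 : ws C (2 * (k : ℕ) + 1) = C.qa * C.qb := by
            unfold ws
            have h4 : Nat.beq (2 * (k : ℕ) + 1) 0 = false := by
              rw [← Bool.not_eq_true, beq_iff]; omega
            have h5 : Nat.beq (2 * (k : ℕ) + 1) 1 = false := by
              rw [← Bool.not_eq_true, beq_iff]; omega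
            rw [h4, h5]; rfl
          rw [h2, h3, zpow_zero]
          push_cast
          ring
    have hsumC : (C.qa * C.qb : ℝ) * ∑ f ∈ nbrs (0 : Site (n + 1)), C.q ^ (f 0) *
        (cert T hC).φo ((cert T hC).child i f) =
        ((sumN C.ns (fun s => cond (kn T C i s) 0 (Nat.mul (ws C s) (phf T (T.ct i s)))) : ℕ) :
          ℝ) := by
      rw [Finset.mul_sum, sumN_eq, Nat.cast_sum, hC.ns_eq]
      refine sum_nbrs _ _ fun f hf => ?_
      rw [← mul_assoc, hws f hf]
      change (ws C (sx f) : ℝ) * (cert T hC).φo (if kn T C i (sx f) then none else _) = _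
      by_cases hk : kn T C i (sx f) = true
      · rw [if_pos hk, hk]
        simp [BCert.φo]
      · rw [if_neg hk]
        rw [Bool.not_eq_true] at hk
        rw [hk]
        have hsx : sx f < C.ns := by rw [hC.ns_eq]; exact sx_lt hf
        have hlt : T.ct i (sx f) < T.N := by
          have h0 := hs.c _ hsx
          unfold chkC at h0
          rw [hk, Bool.false_or] at h0
          rw [sub_eq] at h0
          simp only [band_iff, ble_iff] at h0
          exact h0.1
        change (ws C (sx f) : ℝ) * ((T.ph (toF T i (T.ct i (sx f))) : ℕ) : ℝ) =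
          ((ws C (sx f) * phf T (T.ct i (sx f)) : ℕ) : ℝ)
        rw [toF_val hlt, phf_eq]
        push_cast
        ring
    have hown : (C.qa * C.qb : ℝ) * (C.q * ((cert T hC).φ ((cert T hC).own i).1 : ℝ)) =
        ((C.qa * C.qa * T.ph (T.ot i) : ℕ) : ℝ) := by
      have hlt : T.ot i < T.N := by
        have h0 := hs.o
        unfold chkO at h0
        rw [sub_eq] at h0
        simp only [band_iff, ble_iff] at h0
        exact h0.1
      change (C.qa * C.qb : ℝ) * (C.q * ((T.ph (toF T i (T.ot i)) : ℕ) : ℝ)) = _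
      rw [toF_val hlt]
      unfold Cst.q
      push_cast
      field_simp
    have hw := hs.w
    have hw' : (C.ld : ℝ) * ((tot T C i : ℕ) : ℝ) ≤
        (C.la + C.ld * (T.m i + 1)) * (C.qa * C.qb) * T.ph i := by exact_mod_cast hw
    have htot : ((tot T C i : ℕ) : ℝ) = (C.qa * C.qb : ℝ) *
        (C.q * (cert T hC).φ ((cert T hC).own i).1 + ∑ f ∈ nbrs (0 : Site (n + 1)), C.q ^ (f 0) *
        (cert T hC).φo ((cert T hC).child i f) +
        ∑ y ∈ (cert T hC).E i, (cert T hC).φo ((cert T hC).tgt i y)) := by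
      rw [mul_add, mul_add, hown, hsumC, hsumE]
      have : tot T C i = C.qa * C.qa * phf T (T.ot i) +
          (sumN C.ns (fun s => cond (kn T C i s) 0 (Nat.mul (ws C s) (phf T (T.ct i s)))) +
          C.qa * C.qb * (sumN (T.m i) (fun j => cond (kil T C i j) 0 (phf T (T.it i j))))) := rfl
      rw [this, phf_eq T (T.ot i)]
      push_cast
      ring
    rw [htot] at hw'
    rw [hcard]
    change _ ≤ (C.lam + 1 + (T.m i : ℝ)) * ((T.ph i : ℕ) : ℝ)
    have hpos : (0 : ℝ) < C.ld * (C.qa * C.qb) := by positivity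
    refine le_of_mul_le_mul_left ?_ hpos
    refine le_trans (le_of_eq (by ring)) (hw'.trans (le_of_eq ?_))
    unfold Cst.lam
    field_simp
    ring

/-- SOUNDNESS: a table of labels which passes the check gives the functional -/
theorem hasPsi_of_chk {T : Tab} {C : Cst} (hC : CstOk n r C) (hT : ∀ i j, T.ik i j < 4)
    (hroot : ∃ i < T.N, T.m i = 0) (hall : ∀ i < T.N, chk T C i = true) :
    ∃ Ψ, HasPsi n C.q C.lam Ψ := by
  obtain ⟨i, hi, h0⟩ := hroot
  have : Nonempty (Fin T.N) := ⟨⟨i, hi⟩⟩
  exact (cert_ok hC hT ⟨i, hi, h0⟩ fun i hi => spec (hall i hi)).hasPsi hC.r_pos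

end Pool.Agent.Lib.MP_67d80e_pr_lab
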