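import Pool.Agent.Lib.MP_67d80e_pr_lab.Sym

/-!
Lower bounds coded by the bits of natural numbers: the bit `pc y + P * k` stands for the lower bound
`a y ≥ a 0 + (k - 1)`.
-/

set_option autoImplicit false

open scoped BigOperators
open Pool.Agent.Lib.MP_67d80e_pr Pool.Agent.Lib.MP_67d80e_pr_all

namespace Pool.Agent.Lib.MP_67d80e_pr_lab

variable {n r : ℕ}

/-- the base of the coordinates -/
def Bs (r : ℕ) : ℕ := 2 * r + 3

/-- the number of positions -/
def Pn (n r : ℕ) : ℕ := Bs r ^ (n + 1)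

/-- the linear form of the positions -/
def lin (r : ℕ) (y : Site (n + 1)) : ℤ := ∑ i, y i * (Bs r : ℤ) ^ (i : ℕ)

/-- the position of the origin -/
def ofs (n r : ℕ) : ℕ := ∑ i : Fin (n + 1), (r + 1) * Bs r ^ (i : ℕ)

/-- the position of a site -/
def pc (r : ℕ) (y : Site (n + 1)) : ℕ := (lin r y + ofs n r).toNat

/-- the box of radius `ρ` -/
def InB (ρ : ℕ) (y : Site (n + 1)) : Prop := ∀ i, |y i| ≤ ρ

lemma InB.mono {ρ ρ' : ℕ} (h : ρ ≤ ρ') {y : Site (n + 1)} (hy : InB ρ y) : InB ρ' y := fun i =>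
  (hy i).trans (by exact_mod_cast h)

lemma lin_add (y z : Site (n + 1)) : lin r (y + z) = lin r y + lin r z := by
  unfold lin
  rw [← Finset.sum_add_distrib]
  refine Finset.sum_congr rfl fun i _ => ?_
  rw [Pi.add_apply, add_mul]

lemma lin_neg (y : Site (n + 1)) : lin r (-y) = -lin r y := by
  unfold lin
  rw [← Finset.sum_neg_distrib]
  refine Finset.sum_congr rfl fun i _ => ?_
  rw [Pi.neg_apply, neg_mul]

lemma lin_zero : lin r (0 : Site (n + 1)) = 0 := by
  unfold lin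
  simp

lemma lin_e (i : Fin (n + 1)) : lin r (e i : Site (n + 1)) = (Bs r : ℤ) ^ (i : ℕ) := by
  unfold lin e
  rw [Finset.sum_eq_single i]
  · rw [Pi.single_eq_same, one_mul]
  · intro j _ hj
    rw [Pi.single_eq_of_ne hj, zero_mul]
  · intro h
    exact absurd (Finset.mem_univ i) h

lemma pc_cast {y : Site (n + 1)} (hy : InB (r + 1) y) : (pc r y : ℤ) = lin r y + ofs n r := by
  unfold pc
  apply Int.toNat_of_nonneg
  unfold lin ofs
  push_cast
  rw [← Finset.sum_add_distrib]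
  refine Finset.sum_nonneg fun i _ => ?_
  have h1 := abs_le.1 (hy i)
  have h2 : (0 : ℤ) ≤ (Bs r : ℤ) ^ (i : ℕ) := by positivity
  push_cast at h1
  nlinarith [h1.1]

/-- uniqueness of the digits -/
lemma digits_unique (r m : ℕ) (δ : Fin m → ℤ) (t : ℤ) (hδ : ∀ i, |δ i| ≤ 2 * r + 2)
    (h : ∑ i, δ i * (Bs r : ℤ) ^ (i : ℕ) + t * (Bs r : ℤ) ^ m = 0) : (∀ i, δ i = 0) ∧ t = 0 := by
  induction m with
  | zero =>
    refine ⟨fun i => i.elim0, ?_⟩
    simpa using h
  | succ m ih =>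
    rw [Fin.sum_univ_succ] at h
    have h1 : ∀ i : Fin m, δ i.succ * (Bs r : ℤ) ^ ((i.succ : Fin (m + 1)) : ℕ) =
        (Bs r : ℤ) * (δ i.succ * (Bs r : ℤ) ^ (i : ℕ)) := by
      intro i
      rw [Fin.val_succ, pow_succ]
      ring
    simp only [h1] at h
    rw [← Finset.mul_sum] at h
    set X : ℤ := ∑ i : Fin m, δ i.succ * (Bs r : ℤ) ^ (i : ℕ) with hX
    have h2 : δ 0 + (Bs r : ℤ) * (X + t * (Bs r : ℤ) ^ m) = 0 := by
      have : t * (Bs r : ℤ) ^ (m + 1) = (Bs r : ℤ) * (t * (Bs r : ℤ) ^ m) := by ring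
      rw [this] at h
      simp only [Fin.val_zero, pow_zero, mul_one] at h
      linarith
    set Y : ℤ := X + t * (Bs r : ℤ) ^ m with hY
    have h3 : Y = 0 := by
      by_contra hne
      have h4 : 1 ≤ |Y| := Int.one_le_abs hne
      have h5 : |δ 0| = (Bs r : ℤ) * |Y| := by
        have : δ 0 = -((Bs r : ℤ) * Y) := by linarith
        rw [this, abs_neg, abs_mul, abs_of_nonneg (by positivity : (0 : ℤ) ≤ (Bs r : ℤ))]
      have h6 := hδ 0
      rw [h5] at h6
      have h7 : (Bs r : ℤ) = 2 * r + 3 := by unfold Bs; push_cast; ring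
      rw [h7] at h6
      nlinarith [(Nat.cast_nonneg r : (0 : ℤ) ≤ (r : ℤ))]
    have h8 := ih (fun i => δ i.succ) (fun i => hδ _) h3
    rw [h3, mul_zero, add_zero] at h2
    refine ⟨fun i => ?_, h8.2⟩
    refine Fin.cases h2 (fun j => h8.1 j) i

lemma pc_inj {y y' : Site (n + 1)} {k k' : ℕ} (hy : InB (r + 1) y) (hy' : InB (r + 1) y')
    (h : pc r y + Pn n r * k = pc r y' + Pn n r * k') : y = y' ∧ k = k' := by
  have h1 : (pc r y : ℤ) + Pn n r * k = pc r y' + Pn n r * k' := by exact_mod_cast h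
  rw [pc_cast hy, pc_cast hy'] at h1
  have h2 : ∑ i, (y i - y' i) * (Bs r : ℤ) ^ (i : ℕ) + ((k : ℤ) - k') * (Bs r : ℤ) ^ (n + 1) = 0 := by
    have h3 : ∑ i, (y i - y' i) * (Bs r : ℤ) ^ (i : ℕ) = lin r y - lin r y' := by
      unfold lin
      rw [← Finset.sum_sub_distrib]
      refine Finset.sum_congr rfl fun i _ => ?_
      ring
    rw [h3]
    unfold Pn at h1
    push_cast at h1
    linarith
  have h3 := digits_unique r (n + 1) (fun i => y i - y' i) ((k : ℤ) - k') (fun i => ?_) h2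
  · refine ⟨?_, ?_⟩
    · ext i
      have := h3.1 i
      linarith
    · have := h3.2
      omega
  · have h4 := abs_le.1 (hy i)
    have h5 := abs_le.1 (hy' i)
    push_cast at h4 h5
    rw [abs_le]
    constructor <;> linarith [h4.1, h4.2, h5.1, h5.2]

/-! ### the site of a position -/

/-- the site of a position -/
def pos (n r p : ℕ) : Site (n + 1) := fun i => ((p / Bs r ^ (i : ℕ) % Bs r : ℕ) : ℤ) - (r + 1)

lemma sum_digits (B p m : ℕ) : ∑ i : Fin m, (p / B ^ (i : ℕ) % B) * B ^ (i : ℕ) = p % B ^ m := by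
  induction m with
  | zero => simp [Nat.mod_one]
  | succ m ih =>
    rw [Fin.sum_univ_castSucc]
    simp only [Fin.val_castSucc, Fin.val_last]
    rw [ih, Nat.mod_pow_succ]
    ring

lemma pos_inB (p : ℕ) : InB (r + 1) (pos n r p) := by
  intro i
  unfold pos
  have h1 : p / Bs r ^ (i : ℕ) % Bs r < Bs r := Nat.mod_lt _ (by unfold Bs; omega)
  have h2 : Bs r = 2 * r + 3 := rfl
  rw [abs_le]
  push_cast
  constructor
  · have : (0 : ℤ) ≤ ((p / Bs r ^ (i : ℕ) % Bs r : ℕ) : ℤ) := Nat.cast_nonneg _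
    push_cast at this
    linarith
  · have : ((p / Bs r ^ (i : ℕ) % Bs r : ℕ) : ℤ) < 2 * r + 3 := by
      have : ((p / Bs r ^ (i : ℕ) % Bs r : ℕ) : ℤ) < (Bs r : ℕ) := by exact_mod_cast h1
      rw [h2] at this
      push_cast at this ⊢
      linarith
    push_cast at this
    linarith

lemma pc_pos {p : ℕ} (hp : p < Pn n r) : pc r (pos n r p) = p := by
  have h1 := pc_cast (r := r) (pos_inB (n := n) (r := r) p)
  have h2 : lin r (pos n r p) + ofs n r = p := by
    unfold lin ofs pos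
    push_cast
    rw [← Finset.sum_add_distrib]
    have h3 : ∀ i : Fin (n + 1), ((p : ℤ) / (Bs r : ℤ) ^ (i : ℕ) % (Bs r : ℤ) - (r + 1)) *
        (Bs r : ℤ) ^ (i : ℕ) + ((r : ℤ) + 1) * (Bs r : ℤ) ^ (i : ℕ) =
        (((p / Bs r ^ (i : ℕ) % Bs r) * Bs r ^ (i : ℕ) : ℕ) : ℤ) := by
      intro i
      push_cast
      ring
    rw [Finset.sum_congr rfl fun i _ => h3 i, ← Nat.cast_sum, sum_digits]
    have h4 : p % Bs r ^ (n + 1) = p := Nat.mod_eq_of_lt hp
    rw [h4]
  rw [h2] at h1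
  exact_mod_cast h1

lemma pc_lt {y : Site (n + 1)} (hy : InB (r + 1) y) : pc r y < Pn n r := by
  by_contra hcon
  rw [not_lt] at hcon
  set p := pc r y with hp
  set p0 := p % Pn n r with hp0
  have hPpos : 0 < Pn n r := by unfold Pn Bs; positivity
  have h1 : p0 < Pn n r := Nat.mod_lt _ hPpos
  have h2 := pc_pos (n := n) (r := r) h1
  have h3 : pc r y + Pn n r * 0 = pc r (pos n r p0) + Pn n r * (p / Pn n r) := by
    rw [h2, mul_zero, add_zero, ← hp, hp0]
    exact (Nat.mod_add_div p (Pn n r)).symm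
  have h4 := (pc_inj hy (pos_inB p0) h3).2
  have h5 : 1 ≤ p / Pn n r := (Nat.one_le_div_iff hPpos).2 hcon
  omega

/-- a position all of whose digits are inner -/
lemma pos_inner {p : ℕ} (h : ∀ i : Fin (n + 1), 1 ≤ p / Bs r ^ (i : ℕ) % Bs r ∧
    p / Bs r ^ (i : ℕ) % Bs r ≤ 2 * r + 1) : InB r (pos n r p) := by
  intro i
  obtain ⟨h1, h2⟩ := h i
  unfold pos
  have h3 : (1 : ℤ) ≤ ((p / Bs r ^ (i : ℕ) % Bs r : ℕ) : ℤ) := by exact_mod_cast h1
  have h4 : ((p / Bs r ^ (i : ℕ) % Bs r : ℕ) : ℤ) ≤ 2 * r + 1 := by exact_mod_cast h2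
  rw [abs_le]
  constructor <;> linarith

/-! ### meaningful codes -/

/-- the lower bound `k - 1` at the site `y` holds -/
def Kn (a : Dr (n + 1)) (y : Site (n + 1)) (k : ℕ) : Prop :=
  a 0 + (((k : ℤ) - 1 : ℤ) : WithBot ℤ) ≤ a y

lemma Kn.mono {a : Dr (n + 1)} {y : Site (n + 1)} {k k' : ℕ} (h : Kn a y k) (hk : k' ≤ k) :
    Kn a y k' := by
  unfold Kn at h ⊢
  refine le_trans ?_ h
  have : (((k' : ℤ) - 1 : ℤ) : WithBot ℤ) ≤ (((k : ℤ) - 1 : ℤ) : WithBot ℤ) := by
    exact_mod_cast (by omega : (k' : ℤ) - 1 ≤ (k : ℤ) - 1)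
  gcongr

/-- every bit of the code `c` is a valid lower bound for a site of the box of radius `ρ` -/
def W (r ρ : ℕ) (c : ℕ) (a : Dr (n + 1)) : Prop :=
  ∀ N, c.testBit N = true → ∃ (y : Site (n + 1)) (k : ℕ), InB ρ y ∧
    N = pc r y + Pn n r * k ∧ Kn a y k

lemma W.mono {ρ ρ' c : ℕ} {a : Dr (n + 1)} (h : W r ρ c a) (hρ : ρ ≤ ρ') : W r ρ' c a := by
  intro N hN
  obtain ⟨y, k, h1, h2, h3⟩ := h N hN
  exact ⟨y, k, h1.mono hρ, h2, h3⟩

lemma W.lor {ρ c c' : ℕ} {a : Dr (n + 1)} (h : W r ρ c a) (h' : W r ρ c' a) :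
    W r ρ (c ||| c') a := by
  intro N hN
  rw [Nat.testBit_or, Bool.or_eq_true] at hN
  rcases hN with hN | hN
  · exact h N hN
  · exact h' N hN

/-- reading a lower bound -/
lemma W.get {c : ℕ} {a : Dr (n + 1)} (h : W r (r + 1) c a) {y : Site (n + 1)} {k : ℕ}
    (hy : InB (r + 1) y) (hc : c.testBit (pc r y + Pn n r * k) = true) : Kn a y k := by
  obtain ⟨y', k', h1, h2, h3⟩ := h _ hc
  obtain ⟨rfl, rfl⟩ := pc_inj hy h1 h2
  exact h3

/-- the containment test -/
lemma testBit_of_land_eq {T c N : ℕ} (h : Nat.land T c = T) (hN : T.testBit N = true) :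
    c.testBit N = true := by
  have h1 : (T &&& c).testBit N = true := by
    change (Nat.land T c).testBit N = true
    rw [h]; exact hN
  rw [Nat.testBit_and, Bool.and_eq_true] at h1
  exact h1.2

/-! ### the star -/

lemma e_inB (i : Fin (n + 1)) : InB 1 (e i : Site (n + 1)) := by
  intro k
  unfold e
  by_cases hk : k = i
  · subst hk; simp
  · rw [Pi.single_eq_of_ne hk]; simp

lemma InB.add {ρ ρ' : ℕ} {y z : Site (n + 1)} (hy : InB ρ y) (hz : InB ρ' z) :
    InB (ρ + ρ') (y + z) := by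
  intro i
  rw [Pi.add_apply]
  refine (abs_add_le _ _).trans ?_
  push_cast
  exact add_le_add (hy i) (hz i)

lemma InB.neg {ρ : ℕ} {y : Site (n + 1)} (hy : InB ρ y) : InB ρ (-y) := by
  intro i
  rw [Pi.neg_apply, abs_neg]
  exact hy i

lemma inB_zero (ρ : ℕ) : InB ρ (0 : Site (n + 1)) := by
  intro i
  simp

lemma nbr_inB {f : Site (n + 1)} (hf : f ∈ nbrs (0 : Site (n + 1))) : InB 1 f := by
  obtain ⟨i, h | h⟩ := mem_nbrs_zero.1 hf
  · rw [h]; exact e_inB i
  · rw [h]; exact (e_inB i).neg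

/-- the bits of a star pattern: the centre at position `M` with levels up to `k + 1`, its neighbours
with levels up to `k` -/
def StarBits (n r M k s : ℕ) : Prop :=
  ∀ N, s.testBit N = true → (∃ k' ≤ k + 1, N = M + Pn n r * k') ∨
    ∃ k' ≤ k, ∃ i : Fin (n + 1), N = M + Bs r ^ (i : ℕ) + Pn n r * k' ∨
      N + Bs r ^ (i : ℕ) = M + Pn n r * k'

/-- a star at an inner site is meaningful if its lower bounds hold -/
lemma W.star {M k s : ℕ} (hs : StarBits n r M k s) {w : Site (n + 1)} (hw : InB r w)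
    (hM : M ≤ pc r w) {a : Dr (n + 1)} (h1 : Kn a w (k + 1))
    (h2 : ∀ f ∈ nbrs (0 : Site (n + 1)), Kn a (w + f) k) :
    W r (r + 1) (s <<< (pc r w - M)) a := by
  intro N hN
  rw [Nat.testBit_shiftLeft, Bool.and_eq_true, decide_eq_true_eq] at hN
  obtain ⟨hN1, hN2⟩ := hN
  have hw1 : InB (r + 1) w := hw.mono (Nat.le_succ r)
  rcases hs _ hN2 with ⟨k', hk', h3⟩ | ⟨k', hk', i, h3 | h3⟩
  · exact ⟨w, k', hw1, by omega, h1.mono hk'⟩
  · have h4 : InB (r + 1) (w + e i) := hw.add (e_inB i)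
    refine ⟨w + e i, k', h4, ?_, (h2 (e i) (mem_nbrs_zero.2 ⟨i, Or.inl rfl⟩)).mono hk'⟩
    have h5 : pc r (w + e i) = pc r w + Bs r ^ (i : ℕ) := by
      have := pc_cast h4
      rw [lin_add, lin_e] at this
      have h6 := pc_cast hw1
      have : (pc r (w + e i) : ℤ) = pc r w + (Bs r : ℤ) ^ (i : ℕ) := by linarith
      exact_mod_cast this
    rw [h5]
    omega
  · have h4 : InB (r + 1) (w + -e i) := hw.add (e_inB i).neg
    refine ⟨w + -e i, k', h4, ?_, (h2 (-e i) (mem_nbrs_zero.2 ⟨i, Or.inr rfl⟩)).mono hk'⟩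
    have h5 : pc r (w + -e i) + Bs r ^ (i : ℕ) = pc r w := by
      have := pc_cast h4
      rw [lin_add, lin_neg, lin_e] at this
      have h6 := pc_cast hw1
      have : (pc r (w + -e i) : ℤ) + (Bs r : ℤ) ^ (i : ℕ) = pc r w := by linarith
      exact_mod_cast this
    omega

/-! ### the images of a code -/

lemma Kn_upd {a : Dr (n + 1)} {x y : Site (n + 1)} {k : ℕ} (h : Kn a y k)
    (h0 : upd {x} a 0 = a 0) : Kn (upd {x} a) y k := by
  unfold Kn at h ⊢
  rw [h0]
  exact h.trans (le_upd _ _ _)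

lemma upd_self_eq (a : Dr (n + 1)) (x : Site (n + 1)) : upd {x} a x = a x + 1 := by
  rw [upd_single, if_pos rfl]

lemma le_upd_nbr {a : Dr (n + 1)} {x y : Site (n + 1)} (h : y ∈ nbrs x) : a x ≤ upd {x} a y :=
  upd_nbr (nbrs_symm.1 h) (Set.mem_singleton x) a

/-- the code after a ring of the centre -/
lemma W.own {M c s0 : ℕ} (hs : StarBits n r M 0 s0) (hM : M ≤ ofs n r)
    {a : Dr (n + 1)} (h : W r r c a) :
    W r (r + 1) ((c >>> Pn n r) ||| (s0 <<< (ofs n r - M))) (upd {0} a) := by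
  have hpc0 : pc r (0 : Site (n + 1)) = ofs n r := by
    have := pc_cast (inB_zero (n := n) (r + 1)) (r := r)
    rw [lin_zero, zero_add] at this
    exact_mod_cast this
  have e0 : upd {0} a 0 = a 0 + 1 := upd_self_eq a 0
  refine W.lor ?_ ?_
  · intro N hN
    rw [Nat.testBit_shiftRight] at hN
    obtain ⟨y, k, h1, h2, h3⟩ := h _ hN
    have hy1 := h1.mono (Nat.le_succ r)
    cases k with
    | zero =>
      have := pc_lt hy1
      omega
    | succ k =>
      refine ⟨y, k, hy1, ?_, ?_⟩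
      · rw [Nat.mul_succ] at h2
        omega
      · unfold Kn at h3 ⊢
        refine le_trans ?_ (h3.trans (le_upd _ _ _))
        rw [e0, add_assoc]
        refine le_of_eq ?_
        congr 1
        have : (1 : WithBot ℤ) + (((k : ℤ) - 1 : ℤ) : WithBot ℤ) = ((1 + ((k : ℤ) - 1) : ℤ) : WithBot ℤ) := rfl
        rw [this]
        congr 1
        push_cast
        ring
  · rw [← hpc0]
    refine W.star hs (inB_zero r) (by rw [hpc0]; exact hM) ?_ ?_
    · unfold Kn
      simp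
    · intro f hf
      unfold Kn
      rw [e0, zero_add]
      refine le_trans (le_of_eq ?_) (le_upd_nbr (x := (0 : Site (n + 1))) hf)
      induction a 0 with
      | bot => rfl
      | coe b =>
        have : ((b : ℤ) : WithBot ℤ) + 1 + (((0 : ℕ) : ℤ) - 1 : ℤ) = ((b + 1 + (((0 : ℕ) : ℤ) - 1) : ℤ) : WithBot ℤ) := rfl
        rw [this]
        congr 1
        push_cast
        ring

/-- the code after a ring at a known site which does not create the centre anew -/
lemma W.ring {M k c s : ℕ} (hs : StarBits n r M k s) {w : Site (n + 1)} (hw : InB r w)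
    (hw0 : w ≠ 0) (hM : M ≤ pc r w) {a : Dr (n + 1)} (h : W r r c a) (hk : Kn a w k)
    (hle : w ∈ nbrs (0 : Site (n + 1)) → a w ≤ a 0) :
    W r (r + 1) (c ||| (s <<< (pc r w - M))) (upd {w} a) := by
  have e0 : upd {w} a 0 = a 0 := by
    rw [upd_single, if_neg (fun h0 => hw0 h0.symm)]
    split_ifs with h0
    · rw [max_eq_left]
      exact hle (nbrs_symm.1 h0)
    · rfl
  refine W.lor ?_ ?_
  · intro N hN
    obtain ⟨y, k', h1, h2, h3⟩ := h N hN
    exact ⟨y, k', h1.mono (Nat.le_succ r), h2, Kn_upd h3 e0⟩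
  · refine W.star hs hw hM ?_ ?_
    · unfold Kn at hk ⊢
      rw [e0, upd_self_eq]
      have h1 : a 0 + ((((k + 1 : ℕ) : ℤ) - 1 : ℤ) : WithBot ℤ) =
          a 0 + (((k : ℤ) - 1 : ℤ) : WithBot ℤ) + 1 := by
        rw [add_assoc]
        congr 1
        have : (((k : ℤ) - 1 : ℤ) : WithBot ℤ) + 1 = (((k : ℤ) - 1 + 1 : ℤ) : WithBot ℤ) := rfl
        rw [this]
        congr 1
        push_cast
        ring
      rw [h1]
      gcongr
    · intro f hf
      unfold Kn at hk ⊢
      rw [e0]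
      refine hk.trans (le_upd_nbr ?_)
      rw [add_mem_nbrs_iff]
      exact hf

/-- the droplet seen from `f` -/
def sh (f : Site (n + 1)) (a : Dr (n + 1)) : Dr (n + 1) := fun y => a (f + y)

/-- the code of the neighbour created by a ring of the centre -/
lemma W.child {M c s1 : ℕ} (hr : 1 ≤ r) (hs : StarBits n r M 1 s1) {f : Site (n + 1)}
    (hf : f ∈ nbrs (0 : Site (n + 1))) (hM : M ≤ pc r (-f)) {a : Dr (n + 1)} (h : W r r c a)
    (hlt : a f < a 0) :
    W r (r + 1) ((if ofs n r ≤ pc r f then c >>> (pc r f - ofs n r) else c <<< (ofs n r - pc r f)) |||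
      (s1 <<< (pc r (-f) - M))) (sh f (upd {0} a)) := by
  have e0 : sh f (upd {0} a) 0 = a 0 := by
    unfold sh
    rw [add_zero, upd_single, if_neg (ne_of_mem_nbrs hf), if_pos hf, max_eq_right hlt.le]
  have hf1 : InB (r + 1) f := (nbr_inB hf).mono (by omega)
  have hfr : InB r (-f) := (nbr_inB hf).neg.mono hr
  have hpf := pc_cast hf1
  refine W.lor ?_ ?_
  · have key : ∀ y k, InB r y → Kn a y k → Kn (sh f (upd {0} a)) (y + -f) k := by
      intro y k _ hk
      unfold Kn at hk ⊢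
      rw [e0]
      refine hk.trans ((le_upd {0} a y).trans (le_of_eq ?_))
      unfold sh
      congr 1
      abel
    have hpos : ∀ y : Site (n + 1), InB r y → (pc r (y + -f) : ℤ) = pc r y + ofs n r - pc r f := by
      intro y hy
      have h1 : InB (r + 1) (y + -f) := hy.add (nbr_inB hf).neg
      rw [pc_cast h1, lin_add, lin_neg, pc_cast (hy.mono (Nat.le_succ r)), hpf]
      ring
    split_ifs with hle
    · intro N hN
      rw [Nat.testBit_shiftRight] at hN
      obtain ⟨y, k, h1, h2, h3⟩ := h _ hN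
      refine ⟨y + -f, k, h1.add (nbr_inB hf).neg, ?_, key y k h1 h3⟩
      have h4 := hpos y h1
      have h5 : ((pc r f - ofs n r : ℕ) : ℤ) = pc r f - ofs n r := by
        rw [Nat.cast_sub hle]
      have h6 : ((pc r f - ofs n r + N : ℕ) : ℤ) = ((pc r y + Pn n r * k : ℕ) : ℤ) := by
        exact_mod_cast h2
      push_cast [h5] at h6
      have h7 : (N : ℤ) = pc r (y + -f) + Pn n r * k := by linarith
      exact_mod_cast h7
    · rw [not_le] at hle
      intro N hN
      rw [Nat.testBit_shiftLeft, Bool.and_eq_true, decide_eq_true_eq] at hN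
      obtain ⟨hN1, hN2⟩ := hN
      obtain ⟨y, k, h1, h2, h3⟩ := h _ hN2
      refine ⟨y + -f, k, h1.add (nbr_inB hf).neg, ?_, key y k h1 h3⟩
      have h4 := hpos y h1
      have h5 : ((ofs n r - pc r f : ℕ) : ℤ) = ofs n r - pc r f := by
        rw [Nat.cast_sub hle.le]
      have h6 : ((N - (ofs n r - pc r f) : ℕ) : ℤ) = ((pc r y + Pn n r * k : ℕ) : ℤ) := by
        exact_mod_cast h2
      rw [Nat.cast_sub hN1, h5] at h6
      push_cast at h6
      have h7 : (N : ℤ) = pc r (y + -f) + Pn n r * k := by linarith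
      exact_mod_cast h7
  · refine W.star hs hfr hM ?_ ?_
    · unfold Kn
      rw [e0]
      unfold sh
      rw [add_neg_cancel, upd_self_eq]
      refine le_of_eq ?_
      congr 1
    · intro g hg
      unfold Kn
      rw [e0]
      unfold sh
      rw [← add_assoc, add_neg_cancel, zero_add]
      refine le_trans (le_of_eq ?_) (le_upd_nbr (x := (0 : Site (n + 1))) hg)
      simp

end Pool.Agent.Lib.MP_67d80e_pr_lab
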