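import Pool.Agent.Lib.MP_67d80e_pr_lab.Chk

/-!
The constants of the code, for every dimension and every radius.
-/

set_option autoImplicit false

open scoped BigOperators
open Pool.Agent.Lib.MP_67d80e_pr Pool.Agent.Lib.MP_67d80e_pr_all

namespace Pool.Agent.Lib.MP_67d80e_pr_lab

variable {n r : ℕ}

/-! ### patterns -/

/-- the levels up to `k` at position `0` -/
def patF (P k : ℕ) : ℕ := Nat.rec 1 (fun j acc => Nat.lor (Nat.pow 2 (Nat.mul P (Nat.succ j))) acc) k

lemma testBit_patF (P k N : ℕ) : (patF P k).testBit N = true ↔ ∃ k' ≤ k, N = P * k' := by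
  induction k with
  | zero =>
    change (1 : ℕ).testBit N = true ↔ _
    rw [show (1 : ℕ) = 2 ^ 0 from rfl, Nat.testBit_two_pow, decide_eq_true_eq]
    constructor
    · intro h; exact ⟨0, le_rfl, by omega⟩
    · rintro ⟨k', h1, h2⟩
      have : k' = 0 := by omega
      subst this
      simpa using h2.symm
  | succ k ih =>
    change (2 ^ (P * (k + 1)) ||| patF P k).testBit N = true ↔ _
    rw [Nat.testBit_or, Bool.or_eq_true, ih, Nat.testBit_two_pow, decide_eq_true_eq]
    constructor
    · rintro (h | ⟨k', h1, h2⟩)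
      · exact ⟨k + 1, le_rfl, h.symm⟩
      · exact ⟨k', by omega, h2⟩
    · rintro ⟨k', h1, h2⟩
      rcases Nat.lt_or_ge k' (k + 1) with h3 | h3
      · exact Or.inr ⟨k', by omega, h2⟩
      · have : k' = k + 1 := by omega
        subst this
        exact Or.inl h2.symm

/-- the neighbours of a star -/
def rpN (B P M k m : ℕ) : ℕ := Nat.rec 0 (fun i acc =>
  Nat.lor (Nat.shiftLeft (patF P k) (Nat.add M (Nat.pow B i)))
    (Nat.lor (Nat.shiftLeft (patF P k) (Nat.sub M (Nat.pow B i))) acc)) m

/-- the star patterns -/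
def rpF (B P M m k : ℕ) : ℕ := Nat.lor (Nat.shiftLeft (patF P (Nat.succ k)) M) (rpN B P M k m)

lemma testBit_rpN (B P M k m N : ℕ) (hM : ∀ i < m, B ^ i ≤ M)
    (h : (rpN B P M k m).testBit N = true) : ∃ k' ≤ k, ∃ i < m,
      N = M + B ^ i + P * k' ∨ N + B ^ i = M + P * k' := by
  induction m with
  | zero =>
    change (0 : ℕ).testBit N = true at h
    exact absurd h (by simp)
  | succ m ih =>
    change (((patF P k) <<< (M + B ^ m)) ||| (((patF P k) <<< (M - B ^ m)) |||
      rpN B P M k m)).testBit N = true at h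
    rw [Nat.testBit_or, Nat.testBit_or, Bool.or_eq_true, Bool.or_eq_true,
      Nat.testBit_shiftLeft, Nat.testBit_shiftLeft, Bool.and_eq_true, Bool.and_eq_true,
      decide_eq_true_eq, decide_eq_true_eq, testBit_patF, testBit_patF] at h
    rcases h with ⟨h1, k', h2, h3⟩ | ⟨h1, k', h2, h3⟩ | h
    · exact ⟨k', h2, m, Nat.lt_succ_self m, Or.inl (by omega)⟩
    · refine ⟨k', h2, m, Nat.lt_succ_self m, Or.inr ?_⟩
      have := hM m (Nat.lt_succ_self m)
      omega
    · obtain ⟨k', h1, i, h2, h3⟩ := ih (fun i hi => hM i (by omega)) h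
      exact ⟨k', h1, i, by omega, h3⟩

lemma starBits_rpF (n r k : ℕ) :
    StarBits n r (Bs r ^ n) k (rpF (Bs r) (Pn n r) (Bs r ^ n) (n + 1) k) := by
  intro N hN
  change (((patF (Pn n r) (k + 1)) <<< (Bs r ^ n)) ||| rpN (Bs r) (Pn n r) (Bs r ^ n) k
    (n + 1)).testBit N = true at hN
  rw [Nat.testBit_or, Bool.or_eq_true, Nat.testBit_shiftLeft, Bool.and_eq_true,
    decide_eq_true_eq, testBit_patF] at hN
  rcases hN with ⟨h1, k', h2, h3⟩ | h
  · exact Or.inl ⟨k', h2, by omega⟩
  · right
    have hB : 0 < Bs r := by unfold Bs; omega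
    obtain ⟨k', h1, i, h2, h3⟩ := testBit_rpN _ _ _ _ _ _
      (fun i hi => Nat.pow_le_pow_right hB (by omega)) h
    exact ⟨k', h1, ⟨i, h2⟩, h3⟩

/-! ### positions -/

/-- the digits of a position are inner -/
def innF (B P m p : ℕ) : Bool :=
  and (Nat.ble (Nat.succ p) P) (allN m fun i =>
    and (Nat.ble 1 (Nat.mod (Nat.div p (Nat.pow B i)) B))
      (Nat.ble (Nat.add 2 (Nat.mod (Nat.div p (Nat.pow B i)) B)) B))

lemma innF_spec {p : ℕ} (h : innF (Bs r) (Pn n r) (n + 1) p = true) :
    ∃ y : Site (n + 1), InB r y ∧ pc r y = p := by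
  unfold innF at h
  rw [band_iff, ble_iff] at h
  obtain ⟨h1, h2⟩ := h
  refine ⟨pos n r p, pos_inner fun i => ?_, pc_pos h1⟩
  have h3 := allN_spec h2 i.2
  rw [band_iff, ble_iff, ble_iff] at h3
  obtain ⟨h4, h5⟩ := h3
  change 1 ≤ p / Bs r ^ (i : ℕ) % Bs r at h4
  change 2 + p / Bs r ^ (i : ℕ) % Bs r ≤ Bs r at h5
  refine ⟨h4, ?_⟩
  unfold Bs at h5 ⊢
  omega

/-- the positions of the directions -/
def dpF (B O s : ℕ) : ℕ := cond (Nat.beq (Nat.mod s 2) 0) (Nat.add O (Nat.pow B (Nat.div s 2)))
  (Nat.sub O (Nat.pow B (Nat.div s 2)))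

/-- disjunction of `f k` for `k < n` -/
def exN (n : ℕ) (f : ℕ → Bool) : Bool :=
  Nat.rec false (fun k ih => cond (f k) true ih) n

lemma exN_spec {n : ℕ} {f : ℕ → Bool} (h : exN n f = true) : ∃ k < n, f k = true := by
  induction n with
  | zero => exact absurd (show false = true from h) (by simp)
  | succ n ih =>
    have h' : cond (f n) true (exN n f) = true := h
    cases hf : f n with
    | false =>
      rw [hf] at h'
      obtain ⟨k, h1, h2⟩ := ih h'
      exact ⟨k, by omega, h2⟩
    | true => exact ⟨n, Nat.lt_succ_self n, hf⟩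

lemma dpF_spec (i : Fin (n + 1)) : dpF (Bs r) (ofs n r) (2 * i) = pc r (e i : Site (n + 1)) ∧
    dpF (Bs r) (ofs n r) (2 * i + 1) = pc r (-e i : Site (n + 1)) := by
  have h1 := pc_cast (r := r) ((e_inB i).mono (show 1 ≤ r + 1 by omega))
  have h2 := pc_cast (r := r) ((e_inB i).neg.mono (show 1 ≤ r + 1 by omega))
  rw [lin_e] at h1
  rw [lin_neg, lin_e] at h2
  constructor
  · have h3 : dpF (Bs r) (ofs n r) (2 * i) = ofs n r + Bs r ^ (i : ℕ) := by
      unfold dpF
      have h4 : Nat.beq (Nat.mod (2 * (i : ℕ)) 2) 0 = true := by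
        rw [beq_iff]
        change 2 * (i : ℕ) % 2 = 0
        omega
      have h5 : Nat.div (2 * (i : ℕ)) 2 = i := by
        change 2 * (i : ℕ) / 2 = i
        omega
      rw [h4, h5]
      rfl
    rw [h3]
    have : ((ofs n r + Bs r ^ (i : ℕ) : ℕ) : ℤ) = pc r (e i : Site (n + 1)) := by
      rw [h1]; push_cast; ring
    exact_mod_cast this
  · have h3 : dpF (Bs r) (ofs n r) (2 * i + 1) = ofs n r - Bs r ^ (i : ℕ) := by
      unfold dpF
      have h4 : Nat.beq (Nat.mod (2 * (i : ℕ) + 1) 2) 0 = false := by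
        rw [← Bool.not_eq_true, beq_iff]
        change ¬ (2 * (i : ℕ) + 1) % 2 = 0
        omega
      have h5 : Nat.div (2 * (i : ℕ) + 1) 2 = i := by
        change (2 * (i : ℕ) + 1) / 2 = i
        omega
      rw [h4, h5]
      rfl
    rw [h3]
    have : (pc r (-e i : Site (n + 1)) : ℤ) + Bs r ^ (i : ℕ) = ofs n r := by
      rw [h2]; push_cast; ring
    have h4 : pc r (-e i : Site (n + 1)) + Bs r ^ (i : ℕ) = ofs n r := by exact_mod_cast this
    omega

lemma isnF_spec {y : Site (n + 1)} (hy : InB r y)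
    (h : exN (2 * (n + 1)) (fun s => Nat.beq (dpF (Bs r) (ofs n r) s) (pc r y)) = true) :
    y ∈ nbrs (0 : Site (n + 1)) := by
  obtain ⟨s, hs, h1⟩ := exN_spec h
  rw [beq_iff] at h1
  rcases Nat.even_or_odd' s with ⟨k, h2 | h2⟩
  · subst h2
    have h3 := (dpF_spec (n := n) (r := r) ⟨k, by omega⟩).1
    change dpF (Bs r) (ofs n r) (2 * k) = _ at h3
    rw [h1] at h3
    have h4 : pc r y + Pn n r * 0 = pc r (e ⟨k, by omega⟩ : Site (n + 1)) + Pn n r * 0 := by
      rw [h3]
    rw [(pc_inj (hy.mono (Nat.le_succ r)) ((e_inB _).mono (by omega)) h4).1]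
    exact mem_nbrs_zero.2 ⟨_, Or.inl rfl⟩
  · subst h2
    have h3 := (dpF_spec (n := n) (r := r) ⟨k, by omega⟩).2
    change dpF (Bs r) (ofs n r) (2 * k + 1) = _ at h3
    rw [h1] at h3
    have h4 : pc r y + Pn n r * 0 = pc r (-e ⟨k, by omega⟩ : Site (n + 1)) + Pn n r * 0 := by
      rw [h3]
    rw [(pc_inj (hy.mono (Nat.le_succ r)) ((e_inB _).neg.mono (by omega)) h4).1]
    exact mem_nbrs_zero.2 ⟨_, Or.inr rfl⟩

lemma M_le {y : Site (n + 1)} (hy : InB r y) : Bs r ^ n ≤ pc r y := by
  have h1 := pc_cast (hy.mono (Nat.le_succ r))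
  have h2 : (Bs r : ℤ) ^ n ≤ lin r y + ofs n r := by
    unfold lin ofs
    push_cast
    rw [← Finset.sum_add_distrib, Fin.sum_univ_castSucc]
    have h3 : (0 : ℤ) ≤ ∑ i : Fin n, (y i.castSucc * (Bs r : ℤ) ^ ((i.castSucc : Fin (n + 1)) : ℕ) +
        (r + 1) * (Bs r : ℤ) ^ ((i.castSucc : Fin (n + 1)) : ℕ)) := by
      refine Finset.sum_nonneg fun i _ => ?_
      have h4 := abs_le.1 (hy i.castSucc)
      have h5 : (0 : ℤ) ≤ (Bs r : ℤ) ^ ((i.castSucc : Fin (n + 1)) : ℕ) := by positivity
      nlinarith [h4.1]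
    have h4 := abs_le.1 (hy (Fin.last n))
    have h5 : (0 : ℤ) ≤ (Bs r : ℤ) ^ ((Fin.last n : Fin (n + 1)) : ℕ) := by positivity
    have h6 : (Bs r : ℤ) ^ ((Fin.last n : Fin (n + 1)) : ℕ) = (Bs r : ℤ) ^ n := by
      rw [Fin.val_last]
    rw [← h6]
    nlinarith [h4.1]
  have : ((Bs r ^ n : ℕ) : ℤ) ≤ pc r y := by rw [h1]; push_cast; exact h2
  exact_mod_cast this

/-! ### symmetries -/

/-- the digit `i` of the position of a site -/
lemma digit_pc {y : Site (n + 1)} (hy : InB (r + 1) y) (i : Fin (n + 1)) :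
    ((pc r y / Bs r ^ (i : ℕ) % Bs r : ℕ) : ℤ) = y i + (r + 1) := by
  have h1 := pc_lt hy
  have h2 := pc_pos (n := n) (r := r) h1
  have h3 : pc r (pos n r (pc r y)) + Pn n r * 0 = pc r y + Pn n r * 0 := by rw [h2]
  have h4 := (pc_inj (pos_inB _) hy h3).1
  have h5 := congrFun h4 i
  unfold pos at h5
  linarith

/-- the reflection of the coordinate `i` -/
def reflG (i : Fin (n + 1)) (hi : i ≠ 0) : GG n where
  f := { toFun := fun y k => if k = i then -y k else y k
         invFun := fun y k => if k = i then -y k else y k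
         left_inv := fun y => by
           ext k; dsimp only
           split_ifs
           · rw [neg_neg]
           · rfl
         right_inv := fun y => by
           ext k; dsimp only
           split_ifs
           · rw [neg_neg]
           · rfl
         map_add' := fun y z => by
           ext k
           simp only [Pi.add_apply]
           split_ifs
           · ring
           · rfl }
  zero y := by
    change (if (0 : Fin (n + 1)) = i then -y 0 else y 0) = y 0
    rw [if_neg (fun h => hi h.symm)]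
  nbr y := by
    have key : ∀ y : Site (n + 1), y ∈ nbrs (0 : Site (n + 1)) →
        (fun k => if k = i then -y k else y k) ∈ nbrs (0 : Site (n + 1)) := by
      intro y hy
      rw [mem_nbrs_zero] at hy ⊢
      obtain ⟨j, hj⟩ := hy
      refine ⟨j, ?_⟩
      by_cases hji : j = i
      · rcases hj with hj | hj
        · right
          subst hj
          ext k
          rw [Pi.neg_apply]
          split_ifs with hk
          · rfl
          · unfold e
            rw [hji, Pi.single_eq_of_ne hk, neg_zero]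
        · left
          subst hj
          ext k
          rw [Pi.neg_apply]
          split_ifs with hk
          · rw [neg_neg]
          · unfold e
            rw [hji, Pi.single_eq_of_ne hk, neg_zero]
      · rcases hj with hj | hj
        · left
          subst hj
          ext k
          split_ifs with hk
          · unfold e
            rw [Pi.single_eq_of_ne (fun h => hji (by rw [← h, hk])), neg_zero]
          · rfl
        · right
          subst hj
          ext k
          split_ifs with hk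
          · rw [Pi.neg_apply]
            unfold e
            rw [Pi.single_eq_of_ne (fun h => hji (by rw [← h, hk])), neg_zero, neg_zero]
          · rfl
    constructor
    · intro h
      have h1 := key _ h
      have h2 : (fun k => if k = i then -(fun k => if k = i then -y k else y k) k else
          (fun k => if k = i then -y k else y k) k) = y := by
        ext k; dsimp only
        split_ifs
        · rw [neg_neg]
        · rfl
      have h3 : (fun k => if k = i then -(if k = i then -y k else y k) else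
          (if k = i then -y k else y k)) = y := h2
      rw [← h3]
      exact h1
    · exact key y

/-- the exchange of the coordinates `i` and `j` -/
def swpG (i j : Fin (n + 1)) (hi : i ≠ 0) (hj : j ≠ 0) : GG n where
  f := { toFun := fun y k => y (Equiv.swap i j k)
         invFun := fun y k => y (Equiv.swap i j k)
         left_inv := fun y => by ext k; simp
         right_inv := fun y => by ext k; simp
         map_add' := fun y z => by ext k; simp }
  zero y := by
    change y (Equiv.swap i j 0) = y 0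
    rw [Equiv.swap_apply_of_ne_of_ne (fun h => hi h.symm) (fun h => hj h.symm)]
  nbr y := by
    have h1 : ∀ k : Fin (n + 1), (fun l => (e k : Site (n + 1)) (Equiv.swap i j l)) =
        e (Equiv.swap i j k) := by
      intro k
      ext l
      unfold e
      by_cases hl : Equiv.swap i j l = k
      · have : l = Equiv.swap i j k := by rw [← hl, Equiv.swap_apply_self]
        rw [hl, this, Pi.single_eq_same, Pi.single_eq_same]
      · have : l ≠ Equiv.swap i j k := fun h => hl (by rw [h, Equiv.swap_apply_self])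
        rw [Pi.single_eq_of_ne hl, Pi.single_eq_of_ne this]
    have key : ∀ y : Site (n + 1), y ∈ nbrs (0 : Site (n + 1)) →
        (fun k => y (Equiv.swap i j k)) ∈ nbrs (0 : Site (n + 1)) := by
      intro y hy
      rw [mem_nbrs_zero] at hy ⊢
      obtain ⟨k, hk | hk⟩ := hy
      · subst hk
        exact ⟨_, Or.inl (h1 k)⟩
      · subst hk
        refine ⟨Equiv.swap i j k, Or.inr ?_⟩
        rw [← h1 k]
        rfl
    constructor
    · intro h
      have h2 := key _ h
      have h3 : (fun k => (fun l => y (Equiv.swap i j l)) (Equiv.swap i j k)) = y := by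
        ext k; simp
      change (fun k => (fun l => y (Equiv.swap i j l)) (Equiv.swap i j k)) ∈ _ at h2
      rwa [h3] at h2
    · exact key y

/-- generators of the lateral symmetries -/
inductive Gen where
  | refl (i : ℕ) : Gen
  | swp (i j : ℕ) : Gen

/-- the digit `i` -/
def dgt (B i p : ℕ) : ℕ := Nat.mod (Nat.div p (Nat.pow B i)) B

/-- a generator acting on positions -/
noncomputable def Gen.act (B : ℕ) (g : Gen) (p : ℕ) : ℕ :=
  Gen.rec
    (fun i => Nat.add (Nat.sub p (Nat.mul (dgt B i p) (Nat.pow B i)))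
      (Nat.mul (Nat.sub (Nat.pred B) (dgt B i p)) (Nat.pow B i)))
    (fun i j => Nat.add (Nat.sub (Nat.add p (Nat.mul (dgt B j p) (Nat.pow B i)))
        (Nat.add (Nat.mul (dgt B i p) (Nat.pow B i)) (Nat.mul (dgt B j p) (Nat.pow B j))))
      (Nat.mul (dgt B i p) (Nat.pow B j))) g

/-- a generator acts on the lateral coordinates -/
def Gen.Ok (n : ℕ) : Gen → Prop
  | Gen.refl i => 1 ≤ i ∧ i ≤ n
  | Gen.swp i j => 1 ≤ i ∧ i ≤ n ∧ 1 ≤ j ∧ j ≤ n ∧ i ≠ j

lemma gen_spec {g : Gen} (hg : g.Ok n) : ∃ s : GG n, ∀ y, InB r y → InB r (s.f y) ∧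
    g.act (Bs r) (pc r y) = pc r (s.f y) := by
  cases g with
  | refl i =>
    obtain ⟨h1, h2⟩ := hg
    set i' : Fin (n + 1) := ⟨i, by omega⟩ with hi'
    have hi0 : i' ≠ 0 := by
      intro h
      have := congrArg Fin.val h
      simp only [hi', Fin.val_zero] at this
      omega
    refine ⟨reflG i' hi0, fun y hy => ?_⟩
    have hfy : ∀ k, (reflG i' hi0).f y k = if k = i' then -y k else y k := fun k => rfl
    have hin : InB r ((reflG i' hi0).f y) := by
      intro k
      rw [hfy]
      split_ifs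
      · rw [abs_neg]; exact hy k
      · exact hy k
    refine ⟨hin, ?_⟩
    have hy1 := hy.mono (Nat.le_succ r)
    have h3 := digit_pc hy1 i'
    have h4 := pc_cast hy1
    have h5 := pc_cast (hin.mono (Nat.le_succ r))
    have h6 : lin r ((reflG i' hi0).f y) = lin r y - 2 * y i' * (Bs r : ℤ) ^ i := by
      unfold lin
      have h7 : ∀ k : Fin (n + 1), (reflG i' hi0).f y k * (Bs r : ℤ) ^ (k : ℕ) =
          y k * (Bs r : ℤ) ^ (k : ℕ) - if k = i' then 2 * y i' * (Bs r : ℤ) ^ i else 0 := by
        intro k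
        rw [hfy]
        by_cases hk : k = i'
        · subst hk
          rw [if_pos rfl, if_pos rfl]
          ring
        · rw [if_neg hk, if_neg hk, sub_zero]
      rw [Finset.sum_congr rfl fun k _ => h7 k, Finset.sum_sub_distrib, Finset.sum_ite_eq',
        if_pos (Finset.mem_univ _)]
    set dd := pc r y / Bs r ^ i % Bs r with hdd
    change pc r y - dd * Bs r ^ i + (Bs r - 1 - dd) * Bs r ^ i = _
    have h8 : dd * Bs r ^ i ≤ pc r y := by
      calc dd * Bs r ^ i ≤ (pc r y / Bs r ^ i) * Bs r ^ i :=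
            Nat.mul_le_mul_right _ (Nat.mod_le _ _)
        _ ≤ pc r y := Nat.div_mul_le_self _ _
    have h9 : dd ≤ Bs r - 1 := by
      have : dd < Bs r := Nat.mod_lt _ (by unfold Bs; omega)
      omega
    have h10 : ((pc r y - dd * Bs r ^ i + (Bs r - 1 - dd) * Bs r ^ i : ℕ) : ℤ) =
        pc r ((reflG i' hi0).f y) := by
      rw [h5, h6]
      have h11 : (dd : ℤ) = y i' + (r + 1) := h3
      have h12 : ((Bs r : ℕ) : ℤ) = 2 * r + 3 := by unfold Bs; push_cast; ring
      have h13 : 1 ≤ Bs r := by unfold Bs; omega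
      rw [Nat.cast_add, Nat.cast_sub h8, Nat.cast_mul, Nat.cast_mul, Nat.cast_sub h9,
        Nat.cast_sub h13, h4, h11]
      push_cast
      rw [h12]
      ring
    exact_mod_cast h10
  | swp i j =>
    obtain ⟨h1, h2, h1', h2', hij⟩ := hg
    set i' : Fin (n + 1) := ⟨i, by omega⟩ with hi'
    set j' : Fin (n + 1) := ⟨j, by omega⟩ with hj'
    have hi0 : i' ≠ 0 := by
      intro h
      have := congrArg Fin.val h
      simp only [hi', Fin.val_zero] at this
      omega
    have hj0 : j' ≠ 0 := by
      intro h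
      have := congrArg Fin.val h
      simp only [hj', Fin.val_zero] at this
      omega
    have hne : i' ≠ j' := by
      intro h
      have := congrArg Fin.val h
      simp only [hi', hj'] at this
      exact hij this
    refine ⟨swpG i' j' hi0 hj0, fun y hy => ?_⟩
    have hfy : ∀ k, (swpG i' j' hi0 hj0).f y k = y (Equiv.swap i' j' k) := fun k => rfl
    have hin : InB r ((swpG i' j' hi0 hj0).f y) := by
      intro k
      rw [hfy]
      exact hy _
    refine ⟨hin, ?_⟩
    have hy1 := hy.mono (Nat.le_succ r)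
    have h3 := digit_pc hy1 i'
    have h3' := digit_pc hy1 j'
    have h4 := pc_cast hy1
    have h5 := pc_cast (hin.mono (Nat.le_succ r))
    have h6 : lin r ((swpG i' j' hi0 hj0).f y) = lin r y + (y j' - y i') * (Bs r : ℤ) ^ i +
        (y i' - y j') * (Bs r : ℤ) ^ j := by
      unfold lin
      have h7 : ∀ k : Fin (n + 1), (swpG i' j' hi0 hj0).f y k * (Bs r : ℤ) ^ (k : ℕ) =
          y k * (Bs r : ℤ) ^ (k : ℕ) + (if k = i' then (y j' - y i') * (Bs r : ℤ) ^ i else 0) +
            (if k = j' then (y i' - y j') * (Bs r : ℤ) ^ j else 0) := by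
        intro k
        rw [hfy]
        by_cases hk : k = i'
        · subst hk
          rw [if_pos rfl, if_neg hne, Equiv.swap_apply_left]
          change y j' * (Bs r : ℤ) ^ i = y i' * (Bs r : ℤ) ^ i + _ + 0
          ring
        · by_cases hk' : k = j'
          · subst hk'
            rw [if_pos rfl, if_neg hk, Equiv.swap_apply_right]
            change y i' * (Bs r : ℤ) ^ j = y j' * (Bs r : ℤ) ^ j + 0 + _
            ring
          · rw [if_neg hk, if_neg hk', Equiv.swap_apply_of_ne_of_ne hk hk', add_zero, add_zero]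
      rw [Finset.sum_congr rfl fun k _ => h7 k, Finset.sum_add_distrib, Finset.sum_add_distrib,
        Finset.sum_ite_eq', Finset.sum_ite_eq', if_pos (Finset.mem_univ _),
        if_pos (Finset.mem_univ _)]
    set di := pc r y / Bs r ^ i % Bs r with hdi
    set dj := pc r y / Bs r ^ j % Bs r with hdj
    change pc r y + dj * Bs r ^ i - (di * Bs r ^ i + dj * Bs r ^ j) + di * Bs r ^ j = _
    -- both digits together
    have h8 : di * Bs r ^ i + dj * Bs r ^ j ≤ pc r y := by
      have h9 : pc r y = ∑ k : Fin (n + 1), (pc r y / Bs r ^ (k : ℕ) % Bs r) * Bs r ^ (k : ℕ) := by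
        rw [sum_digits]
        exact (Nat.mod_eq_of_lt (pc_lt hy1)).symm
      have h10 : ∑ k ∈ ({i', j'} : Finset (Fin (n + 1))),
          (pc r y / Bs r ^ (k : ℕ) % Bs r) * Bs r ^ (k : ℕ) ≤ pc r y := by
        conv_rhs => rw [h9]
        exact Finset.sum_le_univ_sum_of_nonneg fun k => Nat.zero_le _
      rw [Finset.sum_pair hne] at h10
      exact h10
    have h10 : ((pc r y + dj * Bs r ^ i - (di * Bs r ^ i + dj * Bs r ^ j) + di * Bs r ^ j : ℕ) : ℤ) =
        pc r ((swpG i' j' hi0 hj0).f y) := by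
      rw [h5, h6]
      have h11 : (di : ℤ) = y i' + (r + 1) := h3
      have h11' : (dj : ℤ) = y j' + (r + 1) := h3'
      have h12 : di * Bs r ^ i + dj * Bs r ^ j ≤ pc r y + dj * Bs r ^ i := by omega
      rw [Nat.cast_add, Nat.cast_sub h12, Nat.cast_add, Nat.cast_mul, Nat.cast_add, Nat.cast_mul,
        Nat.cast_mul, Nat.cast_mul, h4, h11, h11']
      push_cast
      ring
    exact_mod_cast h10

/-- the product of the generators selected by the bits of `h` -/
noncomputable def sigF (B : ℕ) (gens : List Gen) : ℕ → ℕ → ℕ :=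
  List.rec (fun _ p => p)
    (fun g _ ih h p => ih (Nat.div h 2) (cond (Nat.beq (Nat.mod h 2) 0) p (g.act B p))) gens

lemma sigF_spec (gens : List Gen) (hg : ∀ g ∈ gens, g.Ok n) (h : ℕ) : ∃ s : GG n, ∀ y, InB r y →
    InB r (s.f y) ∧ sigF (Bs r) gens h (pc r y) = pc r (s.f y) := by
  induction gens generalizing h with
  | nil => exact ⟨GG.one, fun y hy => ⟨hy, rfl⟩⟩
  | cons g gens ih =>
    obtain ⟨s1, h1⟩ := ih (fun g' hg' => hg g' (List.mem_cons_of_mem _ hg')) (h / 2)
    by_cases hb : Nat.beq (Nat.mod h 2) 0 = true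
    · refine ⟨s1, fun y hy => ⟨(h1 y hy).1, ?_⟩⟩
      change sigF (Bs r) gens (h / 2) (cond (Nat.beq (Nat.mod h 2) 0) (pc r y) _) = _
      rw [hb]
      exact (h1 y hy).2
    · obtain ⟨s2, h2⟩ := gen_spec (r := r) (hg g List.mem_cons_self)
      refine ⟨s1.comp s2, fun y hy => ?_⟩
      obtain ⟨h3, h4⟩ := h2 y hy
      obtain ⟨h5, h6⟩ := h1 _ h3
      refine ⟨h5, ?_⟩
      change sigF (Bs r) gens (h / 2) (cond (Nat.beq (Nat.mod h 2) 0) (pc r y)
        (g.act (Bs r) (pc r y))) = _
      rw [Bool.not_eq_true] at hb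
      rw [hb]
      change sigF (Bs r) gens (h / 2) (g.act (Bs r) (pc r y)) = _
      rw [h4, h6]
      rfl

/-- the constants of the code, built from the literal constants `B`, `P`, `M`, `O` -/
noncomputable def mkC (n B P M O : ℕ) (gens : List Gen) (pat rp : ℕ → ℕ) (qa qb la ld : ℕ) : Cst where
  P := P
  M := M
  O := O
  ns := 2 * (n + 1)
  pat := pat
  rp := rp
  inn := innF B P (n + 1)
  isn p := exN (2 * (n + 1)) (fun s => Nat.beq (dpF B O s) p)
  dp := dpF B O
  sig := sigF B gens
  qa := qa
  qb := qb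
  la := la
  ld := ld

theorem mkC_ok {n r B P M O : ℕ} {gens : List Gen} {pat rp : ℕ → ℕ} {qa qb la ld : ℕ}
    (hr : 1 ≤ r) (hB : B = Bs r) (hP : P = Pn n r) (hM : M = Bs r ^ n) (hO : O = ofs n r)
    (hg : ∀ g ∈ gens, g.Ok n) (hpat : ∀ k < 4, pat k = patF P k)
    (hrp : ∀ k < 4, rp k = rpF B P M (n + 1) k) (hqb : 0 < qb) (hqa : qb ≤ qa) (hld : 0 < ld) :
    CstOk n r (mkC n B P M O gens pat rp qa qb la ld) where
  r_pos := hr
  P_eq := hP
  O_eq := hO
  M_le y hy := by
    change M ≤ pc r y
    rw [hM]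
    exact M_le hy
  ns_eq := rfl
  pat_ok k hk N := by
    change (pat k).testBit N = true ↔ _
    rw [hpat k hk, hP]
    exact testBit_patF _ _ _
  rp_ok k hk := by
    change StarBits n r M k (rp k)
    rw [hrp k hk, hP, hM, hB]
    exact starBits_rpF n r k
  inn_ok p hp := by
    change innF B P (n + 1) p = true at hp
    rw [hB, hP] at hp
    exact innF_spec hp
  isn_ok y hy h := by
    change exN (2 * (n + 1)) (fun s => Nat.beq (dpF B O s) (pc r y)) = true at h
    rw [hB, hO] at h
    exact isnF_spec hy h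
  dp_ok i := by
    change dpF B O (2 * i) = _ ∧ dpF B O (2 * i + 1) = _
    rw [hB, hO]
    exact dpF_spec i
  sig_ok h := by
    obtain ⟨s, hs⟩ := sigF_spec (n := n) (r := r) gens hg h
    refine ⟨s, fun y hy => ⟨(hs y hy).1, ?_⟩⟩
    change sigF B gens h (pc r y) = _
    rw [hB]
    exact (hs y hy).2
  qb_pos := hqb
  qa_ge := hqa
  ld_pos := hld

end Pool.Agent.Lib.MP_67d80e_pr_lab
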