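import Pool.Agent.Lib.MP_67d80e_pr_lab.Cons

/-!
The packed format of the tables of labels.
-/

set_option autoImplicit false

namespace Pool.Agent.Lib.MP_67d80e_pr_lab

/-- binary trees with natural numbers at the leaves -/
inductive Tr where
  | L (v : ℕ) : Tr
  | N (a b : Tr) : Tr

/-- the entry of index `n` -/
noncomputable def Tr.get (t : Tr) : ℕ → ℕ :=
  Tr.rec (motive := fun _ => ℕ → ℕ) (fun v _ => v)
    (fun _ _ ga gb n => cond (Nat.beq (Nat.mod n 2) 0) (ga (Nat.div n 2)) (gb (Nat.div n 2))) t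

/-- the field of width `2 ^ w` at the bit `s` -/
def fld (x s w : ℕ) : ℕ := Nat.mod (Nat.shiftRight x s) w

/-- the table of labels of packed rows: `m` (8 bits), weight (32 bits), own target (16 bits label,
8 bits symmetry), `ns` targets of directions (16 + 8 bits each), then the known sites (12 bits
position, 2 bits level, 6 bits symmetry, 16 bits label) -/
noncomputable def mkT (N ns : ℕ) (t : Tr) : Tab where
  N := N
  m i := fld (t.get i) 0 256
  ph i := fld (t.get i) 8 4294967296
  ot i := fld (t.get i) 40 65536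
  oh i := fld (t.get i) 56 256
  ct i s := fld (t.get i) (Nat.add 64 (Nat.mul 24 s)) 65536
  cs i s := fld (t.get i) (Nat.add 80 (Nat.mul 24 s)) 256
  ip i j := fld (t.get i) (Nat.add (Nat.add 64 (Nat.mul 24 ns)) (Nat.mul 36 j)) 4096
  ik i j := fld (t.get i) (Nat.add (Nat.add 76 (Nat.mul 24 ns)) (Nat.mul 36 j)) 4
  ih i j := fld (t.get i) (Nat.add (Nat.add 78 (Nat.mul 24 ns)) (Nat.mul 36 j)) 64
  it i j := fld (t.get i) (Nat.add (Nat.add 84 (Nat.mul 24 ns)) (Nat.mul 36 j)) 65536

lemma mkT_ik (N ns : ℕ) (t : Tr) (i j : ℕ) : (mkT N ns t).ik i j < 4 :=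
  Nat.mod_lt _ (by norm_num)

/-- a block of labels -/
def chkB (T : Tab) (C : Cst) (b m : ℕ) : Bool := allN m (fun i => chk T C (Nat.add b i))

lemma chkB_spec {T : Tab} {C : Cst} {b m i : ℕ} (h : chkB T C b m = true) (h1 : b ≤ i)
    (h2 : i < b + m) : chk T C i = true := by
  have h3 := allN_spec h (show i - b < m by omega)
  have h4 : Nat.add b (i - b) = i := by change b + (i - b) = i; omega
  rwa [h4] at h3

end Pool.Agent.Lib.MP_67d80e_pr_lab
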