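import Pool.Agent.Lib.MP_67d80e_pr_lab.Abs

/-!
Label certificates up to the symmetries of the lattice which fix the direction of the tilt.
-/

set_option autoImplicit false

open scoped BigOperators ENNReal
open Filter MeasureTheory
open Pool.Agent.Lib.MP_67d80e_pr Pool.Agent.Lib.MP_67d80e_pr_all

namespace Pool.Agent.Lib.MP_67d80e_pr_lab

variable {n : ℕ}

/-- the symmetries of the lattice which fix the coordinate `0` -/
structure GG (n : ℕ) where
  /-- the map -/
  f : Site (n + 1) ≃+ Site (n + 1)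
  zero : ∀ y, f y 0 = y 0
  nbr : ∀ y, f y ∈ nbrs (0 : Site (n + 1)) ↔ y ∈ nbrs (0 : Site (n + 1))

/-- composition: first `h`, then `g` -/
def GG.comp (g h : GG n) : GG n where
  f := h.f.trans g.f
  zero y := by
    change g.f (h.f y) 0 = y 0
    rw [g.zero, h.zero]
  nbr y := by
    change g.f (h.f y) ∈ _ ↔ _
    rw [g.nbr, h.nbr]

/-- the identity -/
def GG.one : GG n where
  f := AddEquiv.refl _
  zero _ := rfl
  nbr _ := Iff.rfl

/-- the inverse -/
def GG.inv (g : GG n) : GG n where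
  f := g.f.symm
  zero y := by
    have := g.zero (g.f.symm y)
    rw [AddEquiv.apply_symm_apply] at this
    exact this.symm
  nbr y := by
    have := g.nbr (g.f.symm y)
    rw [AddEquiv.apply_symm_apply] at this
    exact this.symm

/-- the lower bounds `K` are valid at the origin -/
def V0 (a : Dr (n + 1)) (K : Set (Site (n + 1) × ℤ)) : Prop :=
  ∀ p ∈ K, a 0 + ((p.2 : ℤ) : WithBot ℤ) ≤ a p.1

/-- the droplet seen from `z` in the frame `g` -/
def tw (g : GG n) (z : Site (n + 1)) (a : Dr (n + 1)) : Dr (n + 1) := fun y => a (z + g.f y)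

/-- the image of lower bounds -/
def im (g : GG n) (K : Set (Site (n + 1) × ℤ)) : Set (Site (n + 1) × ℤ) :=
  {p | (g.f.symm p.1, p.2) ∈ K}

lemma mem_nbrs_iff_sub {x y : Site (n + 1)} : y ∈ nbrs x ↔ y - x ∈ nbrs (0 : Site (n + 1)) := by
  rw [← add_mem_nbrs_iff (x := x), add_sub_cancel]

lemma GG.nbr_iff (g : GG n) (z x y : Site (n + 1)) : z + g.f y ∈ nbrs (z + g.f x) ↔ y ∈ nbrs x := by
  rw [mem_nbrs_iff_sub, mem_nbrs_iff_sub (x := x), ← g.nbr (y - x), map_sub]
  congr! 1
  abel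

lemma tw_upd (g : GG n) (z x : Site (n + 1)) (a : Dr (n + 1)) :
    tw g z (upd {z + g.f x} a) = upd {x} (tw g z a) := by
  ext y : 1
  unfold tw
  rw [upd_single, upd_single]
  have h1 : z + g.f y = z + g.f x ↔ y = x :=
    ⟨fun h => g.f.injective (add_left_cancel h), fun h => by rw [h]⟩
  simp only [h1, g.nbr_iff]

lemma tw_comp (g h : GG n) (z x : Site (n + 1)) (a : Dr (n + 1)) :
    tw (g.comp h) (z + g.f x) a = tw h x (tw g z a) := by
  ext y : 1
  unfold tw
  congr 1
  change z + g.f x + g.f (h.f y) = z + g.f (x + h.f y)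
  rw [map_add, add_assoc]

lemma tw_zero (g : GG n) (z : Site (n + 1)) (a : Dr (n + 1)) : tw g z a 0 = a z := by
  unfold tw
  rw [map_zero, add_zero]

lemma val_im {g : GG n} {a : Dr (n + 1)} {z : Site (n + 1)} {K : Set (Site (n + 1) × ℤ)} :
    Val a z (im g K) ↔ V0 (tw g z a) K := by
  unfold Val V0
  constructor
  · intro h p hp
    have h1 : ((g.f p.1, p.2) : Site (n + 1) × ℤ) ∈ im g K := by
      unfold im
      change (g.f.symm (g.f p.1), p.2) ∈ K
      rw [AddEquiv.symm_apply_apply]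
      exact hp
    have h2 := h _ h1
    rw [tw_zero]
    exact h2
  · intro h p hp
    have h1 := h (g.f.symm p.1, p.2) hp
    rw [tw_zero] at h1
    unfold tw at h1
    simp only [AddEquiv.apply_symm_apply] at h1
    exact h1

/-- certificates up to symmetry -/
structure BCert (n : ℕ) (B : Type) where
  /-- lower bounds -/
  K : B → Set (Site (n + 1) × ℤ)
  /-- weight -/
  φ : B → ℕ
  /-- target of a ring of the centre -/
  own : B → B × GG n
  /-- followed sites -/
  E : B → Finset (Site (n + 1))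
  /-- targets of rings at followed sites -/
  tgt : B → Site (n + 1) → Option (B × GG n)
  /-- labels of the created neighbours -/
  child : B → Site (n + 1) → Option (B × GG n)

/-- the weight of an optional label -/
def BCert.φo {B : Type} (c : BCert n B) : Option (B × GG n) → ℝ
  | none => 0
  | some j => c.φ j.1

/-- the conditions, up to symmetry -/
structure BCert.Ok {B : Type} (c : BCert n B) (q lam : ℝ) (R : ℕ) : Prop where
  one_le : 1 ≤ q
  lam_nonneg : 0 ≤ lam
  root : ∃ i, c.K i = ∅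
  pos : ∀ i, 1 ≤ c.φ i
  own_ok : ∀ i a, V0 a (c.K i) → V0 (tw (c.own i).2 0 (upd {0} a)) (c.K (c.own i).1)
  E_ne : ∀ i, (0 : Site (n + 1)) ∉ c.E i
  E_le : ∀ i, ∀ y ∈ c.E i, ∀ k, |y k| ≤ R
  kill_ok : ∀ i, ∀ y ∈ c.E i, c.tgt i y = none → ∀ a : Dr (n + 1), a 0 ≠ ⊥ → V0 a (c.K i) →
    y ∈ nbrs (0 : Site (n + 1)) ∧ a 0 < a y
  tgt_ok : ∀ i, ∀ y ∈ c.E i, ∀ j, c.tgt i y = some j → ∀ a : Dr (n + 1), a 0 ≠ ⊥ →
    V0 a (c.K i) → (y ∈ nbrs (0 : Site (n + 1)) → a y ≤ a 0) → V0 (tw j.2 0 (upd {y} a)) (c.K j.1)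
  nochild_ok : ∀ i, ∀ f ∈ nbrs (0 : Site (n + 1)), c.child i f = none → ∀ a : Dr (n + 1),
    a 0 ≠ ⊥ → V0 a (c.K i) → a 0 ≤ a f
  child_ok : ∀ i, ∀ f ∈ nbrs (0 : Site (n + 1)), ∀ j, c.child i f = some j → ∀ a : Dr (n + 1),
    a 0 ≠ ⊥ → V0 a (c.K i) → a f < a 0 → V0 (tw j.2 f (upd {0} a)) (c.K j.1)
  ineq : ∀ i, q * c.φ (c.own i).1 + ∑ f ∈ nbrs (0 : Site (n + 1)), q ^ (f 0) * c.φo (c.child i f) +
    ∑ y ∈ c.E i, c.φo (c.tgt i y) ≤ (lam + 1 + (c.E i).card) * c.φ i

open Classical in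
/-- the full certificate -/
noncomputable def BCert.full {B : Type} (c : BCert n B) : Cert n (B × GG n) where
  K i := im i.2 (c.K i.1)
  φ i := c.φ i.1
  own i := ((c.own i.1).1, i.2.comp (c.own i.1).2)
  E i := (c.E i.1).image i.2.f
  tgt i y := (c.tgt i.1 (i.2.f.symm y)).map fun j => (j.1, i.2.comp j.2)
  child i y := (c.child i.1 (i.2.f.symm y)).map fun j => (j.1, i.2.comp j.2)

lemma full_φo {B : Type} (c : BCert n B) (g : GG n) (o : Option (B × GG n)) :
    c.full.φo (o.map fun j => (j.1, g.comp j.2)) = c.φo o := by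
  cases o with
  | none => rfl
  | some j => rfl

lemma sum_e (y : Site (n + 1)) : y = ∑ i, y i • (e i : Site (n + 1)) := by
  ext k
  rw [Finset.sum_apply]
  unfold e
  simp [Pi.single_apply]

lemma GG.abs_le (g : GG n) {y : Site (n + 1)} {R : ℕ} (h : ∀ k, |y k| ≤ (R : ℤ))
    (k : Fin (n + 1)) : |g.f y k| ≤ ((n + 1) * R : ℕ) := by
  have h1 : g.f y = ∑ i, y i • g.f (e i) := by
    conv_lhs => rw [sum_e y]
    rw [map_sum]
    refine Finset.sum_congr rfl fun i _ => ?_
    rw [map_zsmul]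
  rw [h1, Finset.sum_apply]
  refine (Finset.abs_sum_le_sum_abs _ _).trans ?_
  have h2 : ∀ i ∈ (Finset.univ : Finset (Fin (n + 1))), |(y i • g.f (e i)) k| ≤ (R : ℤ) := by
    intro i _
    rw [Pi.smul_apply, smul_eq_mul, abs_mul]
    have h3 : g.f (e i) ∈ nbrs (0 : Site (n + 1)) := by
      rw [g.nbr, mem_nbrs_zero]
      exact ⟨i, Or.inl rfl⟩
    have h4 := abs_nbrs_le h3 k
    have h5 := h i
    have h6 : 0 ≤ |y i| := abs_nonneg _
    have h7 : 0 ≤ |g.f (e i) k| := abs_nonneg _
    nlinarith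
  refine (Finset.sum_le_sum h2).trans ?_
  simp

theorem BCert.Ok.full {B : Type} {c : BCert n B} {q lam : ℝ} {R : ℕ} (hR : 1 ≤ R)
    (h : c.Ok q lam R) : c.full.Ok q lam ((n + 1) * R) where
  one_le := h.one_le
  lam_nonneg := h.lam_nonneg
  R_pos := Nat.mul_pos (Nat.succ_pos n) hR
  root := by
    obtain ⟨i, hi⟩ := h.root
    refine ⟨(i, GG.one), ?_⟩
    change im _ (c.K i) = ∅
    rw [hi]
    rfl
  pos i := h.pos _
  own_ok i a z hv := by
    change Val _ _ (im _ _)
    rw [val_im]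
    change Val _ _ (im _ _) at hv
    rw [val_im] at hv
    have h1 := h.own_ok i.1 (tw i.2 z a) hv
    have h2 : tw (i.2.comp (c.own i.1).2) z (upd {z} a) =
        tw (c.own i.1).2 0 (upd {0} (tw i.2 z a)) := by
      have h3 := tw_comp i.2 (c.own i.1).2 z 0 (upd {z} a)
      rw [map_zero, add_zero] at h3
      rw [h3]
      congr 1
      have h4 := tw_upd i.2 z 0 a
      rw [map_zero, add_zero] at h4
      exact h4
    change V0 (tw (i.2.comp (c.own i.1).2) z (upd {z} a)) _
    rw [h2]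
    exact h1
  E_ne i := by
    classical
    intro h0
    obtain ⟨y, hy, h1⟩ := Finset.mem_image.1 h0
    rw [map_eq_zero_iff i.2.f i.2.f.injective] at h1
    subst h1
    exact h.E_ne i.1 hy
  E_le i := by
    classical
    intro y hy
    obtain ⟨y', hy', rfl⟩ := Finset.mem_image.1 hy
    exact i.2.abs_le (h.E_le i.1 y' hy')
  kill_ok i y hy ht a z hne hv := by
    classical
    obtain ⟨y', hy', rfl⟩ := Finset.mem_image.1 hy
    change Val _ _ (im _ _) at hv
    rw [val_im] at hv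
    change (c.tgt i.1 (i.2.f.symm (i.2.f y'))).map _ = none at ht
    rw [AddEquiv.symm_apply_apply, Option.map_eq_none_iff] at ht
    have h1 := h.kill_ok i.1 y' hy' ht (tw i.2 z a) (by rw [tw_zero]; exact hne) hv
    rw [tw_zero] at h1
    exact ⟨by rw [add_mem_nbrs_iff, i.2.nbr]; exact h1.1, h1.2⟩
  tgt_ok i y hy j ht a z hne hv hle := by
    classical
    obtain ⟨y', hy', rfl⟩ := Finset.mem_image.1 hy
    change Val _ _ (im _ _) at hv
    rw [val_im] at hv
    change (c.tgt i.1 (i.2.f.symm (i.2.f y'))).map _ = some j at ht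
    rw [AddEquiv.symm_apply_apply, Option.map_eq_some_iff] at ht
    obtain ⟨j', hj', rfl⟩ := ht
    change Val _ _ (im _ _)
    rw [val_im]
    change V0 (tw (i.2.comp j'.2) z (upd {z + i.2.f y'} a)) _
    have h1 := h.tgt_ok i.1 y' hy' j' hj' (tw i.2 z a) (by rw [tw_zero]; exact hne) hv
      (fun h2 => by
        rw [tw_zero]
        exact hle (by rw [add_mem_nbrs_iff, i.2.nbr]; exact h2))
    have h3 := tw_comp i.2 j'.2 z 0 (upd {z + i.2.f y'} a)
    rw [map_zero, add_zero, tw_upd] at h3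
    rw [h3]
    exact h1
  nochild_ok i f hf hc a z hne hv := by
    change Val _ _ (im _ _) at hv
    rw [val_im] at hv
    change (c.child i.1 (i.2.f.symm f)).map _ = none at hc
    rw [Option.map_eq_none_iff] at hc
    have h1 := h.nochild_ok i.1 (i.2.f.symm f) (by
      rw [← i.2.nbr, AddEquiv.apply_symm_apply]; exact hf) hc (tw i.2 z a)
      (by rw [tw_zero]; exact hne) hv
    rw [tw_zero] at h1
    unfold tw at h1
    rw [AddEquiv.apply_symm_apply] at h1
    exact h1
  child_ok i f hf j hc a z hne hv hlt := by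
    change Val _ _ (im _ _) at hv
    rw [val_im] at hv
    change (c.child i.1 (i.2.f.symm f)).map _ = some j at hc
    rw [Option.map_eq_some_iff] at hc
    obtain ⟨j', hj', rfl⟩ := hc
    change Val _ _ (im _ _)
    rw [val_im]
    change V0 (tw (i.2.comp j'.2) (z + f) (upd {z} a)) _
    have h1 := h.child_ok i.1 (i.2.f.symm f) (by
      rw [← i.2.nbr, AddEquiv.apply_symm_apply]; exact hf) j' hj' (tw i.2 z a)
      (by rw [tw_zero]; exact hne) hv (by
        rw [tw_zero]
        unfold tw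
        rw [AddEquiv.apply_symm_apply]
        exact hlt)
    have h3 := tw_comp i.2 j'.2 z (i.2.f.symm f) (upd {z} a)
    rw [AddEquiv.apply_symm_apply] at h3
    rw [h3]
    have h4 := tw_upd i.2 z 0 a
    rw [map_zero, add_zero] at h4
    rw [h4]
    exact h1
  ineq i := by
    classical
    have h1 := h.ineq i.1
    have h2 : ∑ f ∈ nbrs (0 : Site (n + 1)), q ^ (f 0) * c.full.φo (c.full.child i f) =
        ∑ f ∈ nbrs (0 : Site (n + 1)), q ^ (f 0) * c.φo (c.child i.1 f) := by
      refine Finset.sum_nbij' (fun f => i.2.f.symm f) (fun f => i.2.f f) (fun f hf => ?_)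
        (fun f hf => ?_) (fun f _ => AddEquiv.apply_symm_apply _ _)
        (fun f _ => AddEquiv.symm_apply_apply _ _) (fun f _ => ?_)
      · rw [← i.2.nbr, AddEquiv.apply_symm_apply]; exact hf
      · rw [i.2.nbr]; exact hf
      · have h3 : (i.2.f.symm f) 0 = f 0 := i.2.inv.zero f
        rw [h3]
        congr 1
        exact full_φo c i.2 _
    have h3 : ∑ y ∈ c.full.E i, c.full.φo (c.full.tgt i y) =
        ∑ y ∈ c.E i.1, c.φo (c.tgt i.1 y) := by
      change ∑ y ∈ (c.E i.1).image i.2.f, _ = _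
      rw [Finset.sum_image (fun x _ y _ hxy => i.2.f.injective hxy)]
      refine Finset.sum_congr rfl fun y _ => ?_
      change c.full.φo ((c.tgt i.1 (i.2.f.symm (i.2.f y))).map _) = _
      rw [AddEquiv.symm_apply_apply]
      exact full_φo c i.2 _
    have h4 : (c.full.E i).card = (c.E i.1).card :=
      Finset.card_image_of_injective _ i.2.f.injective
    rw [h2, h3, h4]
    exact h1

/-- certificates up to symmetry give the functional -/
theorem BCert.Ok.hasPsi {B : Type} [Nonempty B] {c : BCert n B} {q lam : ℝ} {R : ℕ}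
    (hR : 1 ≤ R) (h : c.Ok q lam R) : ∃ Ψ, HasPsi n q lam Ψ := by
  have : Nonempty (B × GG n) := ⟨(Classical.arbitrary B, GG.one)⟩
  exact ⟨_, Pool.Agent.Lib.MP_67d80e_pr_lab.hasPsi (h.full hR)⟩

end Pool.Agent.Lib.MP_67d80e_pr_lab
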